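import Pool.Agent.Helper23.Flat.HForm

set_option autoImplicit false
set_option linter.unusedSectionVars false

/-!
Averaging holomorphic forms over a finite group.
-/

open Set Topology MeasureTheory Filter Metric Complex
open scoped ComplexConjugate
open Pool.Agent.Helper76.Flat

namespace Pool.Agent.Helper23.Flat

variable {S : Type*} [TopologicalSpace S] {G : Type*} [Group G]

/-- the translate of a chart -/
noncomputable def tr (ρ : G →* (S ≃ₜ S)) (g : G) (φ : OpenPartialHomeomorph S ℂ) : OpenPartialHomeomorph S ℂ :=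
  (ρ g).symm.transOpenPartialHomeomorph φ

variable {ρ : G →* (S ≃ₜ S)} {g h : G} {φ ψ : OpenPartialHomeomorph S ℂ}

lemma tr_apply (x : S) : tr ρ g φ x = φ ((ρ g).symm x) := rfl

lemma mem_tr_source {x : S} : x ∈ (tr ρ g φ).source ↔ (ρ g).symm x ∈ φ.source := Iff.rfl

lemma tr_target : (tr ρ g φ).target = φ.target := rfl

lemma tr_symm_apply (z : ℂ) : (tr ρ g φ).symm z = ρ g (φ.symm z) := rfl

lemma rho_mul_inv (x : S) : (ρ (g * h⁻¹)).symm x = ρ h ((ρ g).symm x) := by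
  rw [Homeomorph.symm_apply_eq, ← Homeomorph.mul_apply, ← map_mul, inv_mul_cancel_right,
    Homeomorph.apply_symm_apply]

lemma tr_one : tr ρ 1 φ = φ := by
  ext x
  · rw [tr_apply, map_one]
    rfl
  · rw [tr_symm_apply, map_one]
    rfl
  · rw [mem_tr_source, map_one]
    rfl

variable {X : RiemannSurfaceStructure S} {U : Set S}

lemma tr_image (hU : ∀ g x, ρ g x ∈ U ↔ x ∈ U) :
    tr ρ g φ '' ((tr ρ g φ).source ∩ U) = φ '' (φ.source ∩ U) := by
  rw [(tr ρ g φ).image_source_inter_eq', φ.image_source_inter_eq', tr_target]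
  ext z
  simp only [mem_inter_iff, mem_preimage, tr_symm_apply, hU]

/-- the pull back of a form -/
noncomputable def pullForm (hcl : ∀ g, ∀ φ ∈ X.charts, tr ρ g φ ∈ X.charts) (hU : ∀ g x, ρ g x ∈ U ↔ x ∈ U)
    (ω : HoloForm X U) (g : G) : HoloForm X U where
  coeff φ z := ω.coeff (tr ρ g φ) z
  holo φ hφ := by
    refine (ω.holo _ (hcl g φ hφ)).mono ?_
    intro z hz
    refine ⟨hz.1, ?_⟩
    rw [mem_preimage, tr_symm_apply, hU]
    exact hz.2
  trans φ hφ ψ hψ x hxU hxφ hxψ := by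
    have h1 := ω.trans _ (hcl g φ hφ) _ (hcl g ψ hψ) (ρ g x) ((hU g x).2 hxU)
      (by rw [mem_tr_source, Homeomorph.symm_apply_apply]; exact hxφ)
      (by rw [mem_tr_source, Homeomorph.symm_apply_apply]; exact hxψ)
    rw [tr_apply, tr_apply, Homeomorph.symm_apply_apply] at h1
    have h2 : tr ρ g ψ ∘ (tr ρ g φ).symm = ψ ∘ φ.symm := by
      ext z
      simp only [Function.comp_apply, tr_apply, tr_symm_apply, Homeomorph.symm_apply_apply]
    rw [h2] at h1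
    exact h1

/-- sums of forms -/
noncomputable def sumForm [Fintype G] (ω : G → HoloForm X U) : HoloForm X U where
  coeff φ z := ∑ g, (ω g).coeff φ z
  holo φ hφ := by
    have : (fun z => ∑ g, (ω g).coeff φ z) = ∑ g, (ω g).coeff φ := by
      ext z; rw [Finset.sum_apply]
    rw [this]
    exact DifferentiableOn.sum fun g _ => (ω g).holo φ hφ
  trans φ hφ ψ hψ x hxU hxφ hxψ := by
    rw [Finset.sum_mul]
    exact Finset.sum_congr rfl fun g _ => (ω g).trans φ hφ ψ hψ x hxU hxφ hxψ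

lemma avg_invariant [Fintype G] (hcl : ∀ g, ∀ φ ∈ X.charts, tr ρ g φ ∈ X.charts)
    (hU : ∀ g x, ρ g x ∈ U ↔ x ∈ U) (ω : HoloForm X U) (h : G) :
    (sumForm fun g => pullForm hcl hU ω g).Invariant (ρ h) := by
  intro φ hφ ψ hψ x hxU hhx hxφ hxψ
  show ∑ g, ω.coeff (tr ρ g φ) (φ x) =
    (∑ g, ω.coeff (tr ρ g ψ) (ψ (ρ h x))) * deriv (ψ ∘ ρ h ∘ φ.symm) (φ x)
  have hs : ∑ g, ω.coeff (tr ρ g ψ) (ψ (ρ h x)) =
      ∑ g, ω.coeff (tr ρ (g * h⁻¹) ψ) (ψ (ρ h x)) :=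
    (Equiv.sum_comp (Equiv.mulRight h⁻¹) fun g => ω.coeff (tr ρ g ψ) (ψ (ρ h x))).symm
  rw [hs, Finset.sum_mul]
  refine Finset.sum_congr rfl fun g _ => ?_
  have h1 := ω.trans _ (hcl g φ hφ) _ (hcl (g * h⁻¹) ψ hψ) (ρ g x) ((hU g x).2 hxU)
    (by rw [mem_tr_source, Homeomorph.symm_apply_apply]; exact hxφ)
    (by rw [mem_tr_source, rho_mul_inv, Homeomorph.symm_apply_apply]; exact hxψ)
  rw [tr_apply, tr_apply, rho_mul_inv, Homeomorph.symm_apply_apply] at h1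
  have h2 : tr ρ (g * h⁻¹) ψ ∘ (tr ρ g φ).symm = ψ ∘ ρ h ∘ φ.symm := by
    ext z
    simp only [Function.comp_apply, tr_apply, tr_symm_apply, rho_mul_inv,
      Homeomorph.symm_apply_apply]
  rw [h2] at h1
  exact h1

variable [MeasurableSpace S] [BorelSpace S] (F : Frame X)

lemma energy_pull (hcl : ∀ g, ∀ φ ∈ X.charts, tr ρ g φ ∈ X.charts)
    (hU : ∀ g x, ρ g x ∈ U ↔ x ∈ U) (hUo : IsOpen U) (ω : HoloForm X U) (g : G) :
    ∫⁻ x in U, ‖F.frco (pullForm hcl hU ω g) x‖ₑ ^ 2 ∂F.μ =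
      ∫⁻ x in U, ‖F.frco ω x‖ₑ ^ 2 ∂F.μ := by
  have hm : ∀ n, MeasurableSet (U ∩ F.P n) := fun n =>
    hUo.measurableSet.inter (F.measurableSet_P n)
  have hu : ⋃ n, U ∩ F.P n = U := by rw [← inter_iUnion, F.iUnion_P, inter_univ]
  have hd : Pairwise (Function.onFun Disjoint fun n => U ∩ F.P n) := fun i j hij =>
    (F.P_disj hij).mono inter_subset_right inter_subset_right
  have hgU : ρ g '' U = U := by
    ext x
    constructor
    · rintro ⟨y, hy, rfl⟩
      exact (hU g y).2 hy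
    · intro hx
      refine ⟨(ρ g).symm x, ?_, Homeomorph.apply_symm_apply _ _⟩
      rw [← hU g, Homeomorph.apply_symm_apply]
      exact hx
  have e1 : ∫⁻ x in U, ‖F.frco (pullForm hcl hU ω g) x‖ₑ ^ 2 ∂F.μ =
      ∑' n, ∫⁻ x in U ∩ F.P n, ‖F.frco (pullForm hcl hU ω g) x‖ₑ ^ 2 ∂F.μ := by
    rw [← lintegral_iUnion hm hd, hu]
  have e2 : ∫⁻ x in U, ‖F.frco ω x‖ₑ ^ 2 ∂F.μ =
      ∑' n, ∫⁻ x in ρ g '' (U ∩ F.P n), ‖F.frco ω x‖ₑ ^ 2 ∂F.μ := by
    rw [← lintegral_iUnion, ← image_iUnion, hu, hgU]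
    · exact fun n => (ρ g).measurableEmbedding.measurableSet_image.2 (hm n)
    · exact fun i j hij => (disjoint_image_iff (ρ g).injective).2 (hd hij)
  rw [e1, e2]
  congr 1
  ext n
  rw [F.frco_lintegral hUo _ (F.mem n) (hm n)
    (fun x hx => ⟨F.P_subset n hx.2, hx.1⟩),
    F.frco_lintegral hUo ω (hcl g _ (F.mem n))
      ((ρ g).measurableEmbedding.measurableSet_image.2 (hm n))]
  · rw [← image_comp]
    have : tr ρ g (F.Φ n) ∘ ρ g = F.Φ n := by
      ext x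
      simp [tr_apply]
    rw [this]
    rfl
  · rintro _ ⟨x, hx, rfl⟩
    refine ⟨?_, (hU g x).2 hx.1⟩
    rw [mem_tr_source, Homeomorph.symm_apply_apply]
    exact F.P_subset n hx.2

lemma avg_isL2 [Fintype G] (hcl : ∀ g, ∀ φ ∈ X.charts, tr ρ g φ ∈ X.charts)
    (hU : ∀ g x, ρ g x ∈ U ↔ x ∈ U) (hUo : IsOpen U) (ω : HoloForm X U)
    (hω : MemLp (F.frco ω) 2 (F.μ.restrict U)) :
    (sumForm fun g => pullForm hcl hU ω g).IsL2 := by
  refine F.isL2_of_memLp hUo _ ?_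
  have h1 : F.frco (sumForm fun g => pullForm hcl hU ω g) =
      fun x => ∑ g, F.frco (pullForm hcl hU ω g) x := rfl
  rw [h1]
  refine memLp_finsetSum _ fun g _ => ?_
  have h2 : AEStronglyMeasurable (F.frco (pullForm hcl hU ω g)) (F.μ.restrict U) :=
    (F.aemeasurable_frco hUo _ _).aestronglyMeasurable
  rw [memLp_two_iff h2, energy_pull F hcl hU hUo ω g]
  exact (memLp_two_iff hω.1).1 hω

/-- the form of `A` has `A` as frame coefficient -/
lemma frco_form (hUo : IsOpen U) {A : S → ℂ} (hA : StronglyMeasurable A)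
    (hA2 : MemLp A 2 (F.μ.restrict U))
    (h : ∀ φ ∈ X.charts, ∀ v, IsTest φ v → tsupport v ⊆ φ '' (φ.source ∩ U) →
      ∫ x in U, A x * conj (F.tf φ v x) ∂F.μ = 0) :
    MemLp (F.frco (F.form hUo hA hA2 h)) 2 (F.μ.restrict U) := by
  have h2 : AEStronglyMeasurable (F.frco (F.form hUo hA hA2 h)) (F.μ.restrict U) :=
    (F.aemeasurable_frco hUo _ _).aestronglyMeasurable
  rw [memLp_two_iff h2]
  refine lt_of_le_of_lt (le_of_eq ?_) ((memLp_two_iff hA2.1).1 hA2)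
  have hm : ∀ n, MeasurableSet (U ∩ F.P n) := fun n =>
    hUo.measurableSet.inter (F.measurableSet_P n)
  have hu : ⋃ n, U ∩ F.P n = U := by rw [← inter_iUnion, F.iUnion_P, inter_univ]
  have hd : Pairwise (Function.onFun Disjoint fun n => U ∩ F.P n) := fun i j hij =>
    (F.P_disj hij).mono inter_subset_right inter_subset_right
  have e1 : ∀ f : S → ℂ, ∫⁻ x in U, ‖f x‖ₑ ^ 2 ∂F.μ =
      ∑' n, ∫⁻ x in U ∩ F.P n, ‖f x‖ₑ ^ 2 ∂F.μ := by
    intro f
    rw [← lintegral_iUnion hm hd, hu]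
  rw [e1, e1 A]
  congr 1
  ext n
  have hs : U ∩ F.P n ⊆ (F.Φ n).source ∩ U := fun x hx => ⟨F.P_subset n hx.2, hx.1⟩
  rw [F.frco_lintegral hUo _ (F.mem n) (hm n) hs,
    F.lintegral_sq (F.mem n) (hm n) (hs.trans inter_subset_left) hA.measurable.aemeasurable]
  have hm' := measurableSet_image (φ := F.Φ n) (hm n) (hs.trans inter_subset_left)
  refine lintegral_congr_ae ?_
  have hl : LocallyIntegrable (F.bco U A (F.Φ n)) volume :=
    (F.bco_memLp hUo.measurableSet hA hA2 (F.mem n)).locallyIntegrable (by norm_num)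
  have a1 : ∀ᵐ z ∂(volume.restrict (F.Φ n '' (U ∩ F.P n))),
      reg (F.bco U A (F.Φ n)) z = F.bco U A (F.Φ n) z := ae_restrict_of_ae (reg_ae hl)
  filter_upwards [a1, ae_restrict_mem hm'] with z h1 hz
  show ‖reg (F.bco U A (F.Φ n)) z‖ₑ ^ 2 = _
  rw [h1, Frame.bco, indicator_of_mem (image_mono hs hz)]

end Pool.Agent.Helper23.Flat
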