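import Pool.Agent.Helper23.Flat.Avg

set_option autoImplicit false
set_option linter.unusedSectionVars false

/-!
Existence of an invariant `L²` holomorphic form on the complement of the translates of a disc.
-/

open Set Topology MeasureTheory Filter Metric Complex
open scoped ComplexConjugate
open Pool.Agent.Helper76.Flat

namespace Pool.Agent.Helper23.Flat

section plane

lemma D_re_mul {χ : ℂ → ℝ} {z : ℂ} (h : χ =ᶠ[𝓝 z] fun _ => 1) :
    D (fun w => χ w * w.re) z = 1 := by
  have h1 : (fun w => χ w * w.re) =ᶠ[𝓝 z] fun w => w.re := by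
    filter_upwards [h] with w hw
    rw [hw, one_mul]
  rw [D_congr h1, D]
  have h2 : fderiv ℝ (fun w : ℂ => w.re) z = reCLM := reCLM.fderiv
  rw [h2]
  simp

lemma D_im_mul {χ : ℂ → ℝ} {z : ℂ} (h : χ =ᶠ[𝓝 z] fun _ => 1) :
    D (fun w => χ w * w.im) z = -I := by
  have h1 : (fun w => χ w * w.im) =ᶠ[𝓝 z] fun w => w.im := by
    filter_upwards [h] with w hw
    rw [hw, one_mul]
  rw [D_congr h1, D]
  have h2 : fderiv ℝ (fun w : ℂ => w.im) z = imCLM := imCLM.fderiv
  rw [h2]
  simp

/-- the planar cut-off functions -/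
lemma exists_cut (c : ℂ) {r R : ℝ} (hr : 0 < r) (hrR : r < R) :
    ∃ f W : ℂ → ℝ, ContDiff ℝ (⊤ : ℕ∞) f ∧ ContDiff ℝ (⊤ : ℕ∞) W ∧
      HasCompactSupport f ∧ HasCompactSupport W ∧
      tsupport f ⊆ closedBall c R ∧ tsupport W ⊆ closedBall c R ∧
      (∀ z ∈ closedBall c r, D f z * conj (D W z) = I) := by
  set χ : ContDiffBump c := ⟨(2 * r + R) / 3, (r + 2 * R) / 3, by linarith, by linarith⟩ with hχ
  have hχs : ContDiff ℝ (⊤ : ℕ∞) χ := χ.contDiff
  have hsupp : tsupport χ ⊆ closedBall c R := by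
    rw [χ.tsupport_eq]
    exact closedBall_subset_closedBall (by show (r + 2 * R) / 3 ≤ R; linarith)
  refine ⟨fun z => χ z * z.re, fun z => χ z * z.im, hχs.mul reCLM.contDiff,
    hχs.mul imCLM.contDiff, χ.hasCompactSupport.mul_right, χ.hasCompactSupport.mul_right,
    (tsupport_mul_subset_left).trans hsupp, (tsupport_mul_subset_left).trans hsupp, ?_⟩
  intro z hz
  have h1 : (χ : ℂ → ℝ) =ᶠ[𝓝 z] fun _ => 1 := by
    refine χ.eventuallyEq_one_of_mem_ball ?_
    rw [mem_closedBall] at hz
    rw [mem_ball]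
    show dist z c < (2 * r + R) / 3
    linarith
  rw [D_re_mul h1, D_im_mul h1]
  simp

end plane

variable {S : Type*} [TopologicalSpace S] {G : Type*} [Group G]

lemma exists_holoForm_aux [T2Space S] [SecondCountableTopology S] [MeasurableSpace S]
    [BorelSpace S] (X : RiemannSurfaceStructure S) [Finite G] (ρ : G →* (S ≃ₜ S))
    (hcl : ∀ g, ∀ φ ∈ X.charts, tr ρ g φ ∈ X.charts)
    {κ : OpenPartialHomeomorph S ℂ} (hκ : κ ∈ X.charts)
    (c : ℂ) {r R : ℝ} (hr : 0 < r) (hrR : r < R) (hR : closedBall c R ⊆ κ.target)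
    (hdisj : ∀ g : G, g ≠ 1 →
      Disjoint (ρ g '' (κ.symm '' closedBall c R)) (κ.symm '' closedBall c R)) :
    ∃ ω : HoloForm X (⋃ g, ρ g '' (κ.symm '' closedBall c r))ᶜ,
      (∀ g, ω.Invariant (ρ g)) ∧ ω.IsL2 ∧
      ∃ x ∈ (⋃ g, ρ g '' (κ.symm '' closedBall c r))ᶜ, x ∈ κ.source ∧
        ω.coeff κ (κ x) ≠ 0 := by
  classical
  have := Fintype.ofFinite G
  have : Nonempty S := ⟨κ.symm c⟩
  obtain ⟨F⟩ := exists_frame X
  set U : Set S := (⋃ g, ρ g '' (κ.symm '' closedBall c r))ᶜ with hUdef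
  have hK : IsCompact (κ.symm '' closedBall c r) :=
    (isCompact_closedBall c r).image_of_continuousOn
      (κ.symm.continuousOn.mono ((closedBall_subset_closedBall hrR.le).trans hR))
  have hUo : IsOpen U := by
    rw [hUdef, isOpen_compl_iff]
    exact (isCompact_iUnion fun g => hK.image (ρ g).continuous).isClosed
  have hUinv : ∀ g x, ρ g x ∈ U ↔ x ∈ U := by
    intro g x
    simp only [hUdef, mem_compl_iff, not_iff_not, mem_iUnion]
    constructor
    · rintro ⟨h, y, hy, hyx⟩
      refine ⟨g⁻¹ * h, y, hy, ?_⟩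
      rw [map_mul, Homeomorph.mul_apply, hyx, ← Homeomorph.mul_apply, ← map_mul, inv_mul_cancel,
        map_one, Homeomorph.one_apply]
    · rintro ⟨h, y, hy, rfl⟩
      exact ⟨g * h, y, hy, by rw [map_mul, Homeomorph.mul_apply]⟩
  obtain ⟨f, W, hfs, hWs, hfc, hWc, hft, hWt, hfW⟩ := exists_cut c hr hrR
  have hf : IsTest κ f := ⟨hfs, hfc, hft.trans hR⟩
  have hW : ∀ g, IsTest (tr ρ g κ) W := fun g => ⟨hWs, hWc, hWt.trans hR⟩
  obtain ⟨A, hA, hA2, hA3, hA4⟩ := F.exists_proj hUo.measurableSet hκ hf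
  set ω := F.form hUo hA hA2 hA3 with hω
  refine ⟨sumForm fun g => pullForm hcl hUinv ω g, fun h => avg_invariant hcl hUinv ω h,
    avg_isL2 F hcl hUinv hUo ω (frco_form F hUo hA hA2 hA3), ?_⟩
  by_contra hcon
  push Not at hcon
  set V : Set ℂ := κ '' (κ.source ∩ U) with hV
  have hmU : MeasurableSet (κ.source ∩ U) := κ.open_source.measurableSet.inter hUo.measurableSet
  have hmV : MeasurableSet V := measurableSet_image hmU inter_subset_left
  -- the sum of the coefficients vanishes
  have h1 : ∀ z ∈ V, ∑ g, reg (F.bco U A (tr ρ g κ)) z = 0 := by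
    rintro _ ⟨x, ⟨hx, hxU⟩, rfl⟩
    exact hcon x hxU hx
  have h2 : ∀ᵐ z ∂(volume.restrict V), ∑ g, F.bco U A (tr ρ g κ) z = 0 := by
    have h3 : ∀ᵐ z ∂(volume.restrict V), ∀ g,
        reg (F.bco U A (tr ρ g κ)) z = F.bco U A (tr ρ g κ) z := by
      rw [ae_all_iff]
      intro g
      refine ae_restrict_of_ae (reg_ae ?_)
      exact (F.bco_memLp hUo.measurableSet hA hA2 (hcl g κ hκ)).locallyIntegrable (by norm_num)
    filter_upwards [h3, ae_restrict_mem hmV] with z h4 h5
    rw [← h1 z h5]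
    exact Finset.sum_congr rfl fun g _ => (h4 g).symm
  have htrV : ∀ g, tr ρ g κ '' ((tr ρ g κ).source ∩ U) = V := fun g => tr_image hUinv
  -- integrate against `W`
  have h6 : ∑ g, ∫ x in U, A x * conj (F.tf (tr ρ g κ) W x) ∂F.μ = 0 := by
    have h7 : ∀ g, ∫ x in U, A x * conj (F.tf (tr ρ g κ) W x) ∂F.μ =
        ∫ z in V, F.bco U A (tr ρ g κ) z * conj (D W z) := by
      intro g
      rw [F.pairing (hcl g κ hκ) (hW g) hUo.measurableSet hA.aestronglyMeasurable, htrV g]
      refine setIntegral_congr_fun hmV fun z hz => ?_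
      rw [Frame.bco, htrV g, indicator_of_mem hz]
    simp_rw [h7]
    rw [← integral_finsetSum]
    · rw [← integral_zero ℂ ℂ (μ := volume.restrict V)]
      refine integral_congr_ae ?_
      filter_upwards [h2] with z hz
      rw [← Finset.sum_mul, hz, zero_mul]
    · intro g _
      have m1 : MemLp (F.bco U A (tr ρ g κ)) 2 (volume.restrict V) :=
        (F.bco_memLp hUo.measurableSet hA hA2 (hcl g κ hκ)).restrict V
      have m2 : MemLp (D W) 2 (volume : Measure ℂ) :=
        (D_continuous hWs).memLp_of_hasCompactSupport (D_hasCompactSupport hWc)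
      exact integrable_pair (m2.restrict V) m1
  have h8 : ∑ g, (∫ x in U, F.tf κ f x * conj (F.tf (tr ρ g κ) W x) ∂F.μ).im = 0 := by
    rw [← Complex.zero_im, ← h6, Complex.im_sum]
    exact Finset.sum_congr rfl fun g _ => (hA4 _ (hcl g κ hκ) W (hW g)).symm
  -- the terms with `g ≠ 1` vanish
  have hsf : ∀ x, F.tf κ f x ≠ 0 → x ∈ κ.symm '' closedBall c R := by
    intro x hx
    by_cases hxs : x ∈ κ.source
    · rw [Frame.tf, indicator_of_mem hxs] at hx
      refine ⟨κ x, hft ?_, κ.left_inv hxs⟩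
      by_contra h
      exact hx (by rw [D_support h, zero_div])
    · rw [Frame.tf, indicator_of_notMem hxs] at hx
      exact absurd rfl hx
  have hsW : ∀ g x, F.tf (tr ρ g κ) W x ≠ 0 → x ∈ ρ g '' (κ.symm '' closedBall c R) := by
    intro g x hx
    by_cases hxs : x ∈ (tr ρ g κ).source
    · rw [Frame.tf, indicator_of_mem hxs] at hx
      refine ⟨(ρ g).symm x, ⟨κ ((ρ g).symm x), hWt ?_, κ.left_inv hxs⟩,
        Homeomorph.apply_symm_apply _ _⟩
      by_contra h
      exact hx (by rw [tr_apply, D_support h, zero_div])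
    · rw [Frame.tf, indicator_of_notMem hxs] at hx
      exact absurd rfl hx
  have h9 : ∀ g, g ≠ 1 → (∫ x in U, F.tf κ f x * conj (F.tf (tr ρ g κ) W x) ∂F.μ).im = 0 := by
    intro g hg
    have : ∀ x, F.tf κ f x * conj (F.tf (tr ρ g κ) W x) = 0 := by
      intro x
      by_contra hne
      have a1 := left_ne_zero_of_mul hne
      have a2 : F.tf (tr ρ g κ) W x ≠ 0 := fun h => right_ne_zero_of_mul hne (by rw [h, map_zero])
      exact Set.disjoint_left.1 (hdisj g hg) (hsW g x a2) (hsf x a1)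
    simp [this]
  rw [Finset.sum_eq_single 1 (fun g _ hg => h9 g hg) (fun h => absurd (Finset.mem_univ _) h),
    tr_one] at h8
  have hW1 : IsTest κ W := by simpa only [tr_one] using hW 1
  rw [F.pairing hκ hW1 hUo.measurableSet (F.aestronglyMeasurable_tf hf _)] at h8
  -- compute the integral
  have h10 : ∫ z in V, (F.tf κ f (κ.symm z) * F.J κ (κ.symm z)) * conj (D W z) =
      ∫ z in V, D f z * conj (D W z) := by
    refine setIntegral_congr_fun hmV fun z hz => ?_
    obtain ⟨x, ⟨hx, hxU⟩, rfl⟩ := hz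
    rw [κ.left_inv hx, Frame.tf, indicator_of_mem hx, div_mul_cancel₀ _ (F.J_ne hκ hx)]
  have hint : Integrable (fun z => D f z * conj (D W z)) (volume : Measure ℂ) := by
    have m1 : MemLp (D W) 2 (volume : Measure ℂ) :=
      (D_continuous hWs).memLp_of_hasCompactSupport (D_hasCompactSupport hWc)
    have m2 : MemLp (D f) 2 (volume : Measure ℂ) :=
      (D_continuous hfs).memLp_of_hasCompactSupport (D_hasCompactSupport hfc)
    exact integrable_pair m1 m2
  have h11 : ∫ z in V, D f z * conj (D W z) =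
      ∫ z in (closedBall c r)ᶜ, D f z * conj (D W z) := by
    have hsub : V ⊆ (closedBall c r)ᶜ := by
      rintro _ ⟨x, ⟨hx, hxU⟩, rfl⟩ hmem
      apply hxU
      refine mem_iUnion.2 ⟨1, x, ⟨κ x, hmem, κ.left_inv hx⟩, ?_⟩
      rw [map_one, Homeomorph.one_apply]
    symm
    refine setIntegral_eq_of_subset_of_forall_sdiff_eq_zero isClosed_closedBall.measurableSet.compl
      hsub ?_
    rintro z ⟨hz1, hz2⟩
    by_contra hne
    have hzR : z ∈ closedBall c R := by
      by_contra h
      exact left_ne_zero_of_mul hne (D_support fun h' => h (hft h'))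
    apply hz2
    have hzt := hR hzR
    refine ⟨κ.symm z, ⟨κ.map_target hzt, ?_⟩, κ.right_inv hzt⟩
    intro hmem
    obtain ⟨g, y, ⟨w, hw, rfl⟩, hy⟩ := mem_iUnion.1 hmem
    by_cases hg : g = 1
    · subst hg
      rw [map_one, Homeomorph.one_apply] at hy
      have hwt : w ∈ κ.target := hR (closedBall_subset_closedBall hrR.le hw)
      have : w = z := κ.symm.injOn hwt hzt hy
      subst this
      exact hz1 hw
    · refine Set.disjoint_left.1 (hdisj g hg)
        ⟨_, ⟨w, closedBall_subset_closedBall hrR.le hw, rfl⟩, rfl⟩ ?_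
      rw [hy]
      exact ⟨z, hzR, rfl⟩
  have h12 : (∫ z, D f z * conj (D W z)).im = 0 := by
    have := stokes isOpen_univ hWs hWc (subset_univ _) hfs.contDiffOn
      (A := univ) (subset_univ (tsupport W))
    rwa [setIntegral_univ] at this
  have h13 : ∫ z in closedBall c r, D f z * conj (D W z) =
      ((volume : Measure ℂ).real (closedBall c r) : ℂ) * I := by
    rw [setIntegral_congr_fun isClosed_closedBall.measurableSet hfW]
    rw [setIntegral_const, real_smul]
  have h14 := integral_add_compl (isClosed_closedBall (x := c) (ε := r)).measurableSet hint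
  rw [h13] at h14
  rw [h10, h11] at h8
  have h15 := congrArg Complex.im h14
  rw [add_im, h8, h12, add_zero] at h15
  have h16 : (((volume : Measure ℂ).real (closedBall c r) : ℂ) * I).im =
      (volume : Measure ℂ).real (closedBall c r) := by simp
  rw [h16] at h15
  have h17 : 0 < (volume : Measure ℂ).real (closedBall c r) := by
    rw [Measure.real, ENNReal.toReal_pos_iff]
    exact ⟨measure_closedBall_pos volume c hr, measure_closedBall_lt_top⟩
  exact h17.ne' h15

end Pool.Agent.Helper23.Flat
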