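import Pool.Agent.Helper23.Flat.Proj

set_option autoImplicit false
set_option linter.unusedSectionVars false

/-!
The holomorphic form of a weakly holomorphic `L²` form; the `L²` norm of holomorphic forms.
-/

open Set Topology MeasureTheory Filter Metric Complex
open scoped ComplexConjugate
open Pool.Agent.Helper76.Flat

namespace Pool.Agent.Helper23.Flat

variable {S : Type*} [TopologicalSpace S]

namespace Frame

variable {X : RiemannSurfaceStructure S} (F : Frame X) [MeasurableSpace S] [BorelSpace S]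

/-- the coefficient of the form `A` in a chart -/
noncomputable def bco (U : Set S) (A : S → ℂ) (φ : OpenPartialHomeomorph S ℂ) : ℂ → ℂ :=
  (φ '' (φ.source ∩ U)).indicator fun z => A (φ.symm z) * F.J φ (φ.symm z)

lemma bco_memLp {U : Set S} (hU : MeasurableSet U) {A : S → ℂ} (hA : StronglyMeasurable A)
    (hA2 : MemLp A 2 (F.μ.restrict U)) {φ : OpenPartialHomeomorph S ℂ} (hφ : φ ∈ X.charts) :
    MemLp (F.bco U A φ) 2 (volume : Measure ℂ) := by
  have hm : MeasurableSet (φ.source ∩ U) := φ.open_source.measurableSet.inter hU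
  have hm' : MeasurableSet (φ '' (φ.source ∩ U)) := measurableSet_image hm inter_subset_left
  have h1 : AEMeasurable (fun z => A (φ.symm z) * F.J φ (φ.symm z))
      (volume.restrict (φ '' (φ.source ∩ U))) :=
    (hA.measurable.comp_aemeasurable (aemeasurable_symm inter_subset_left volume)).mul
      (F.aemeasurable_J inter_subset_left)
  have h2 : AEStronglyMeasurable (F.bco U A φ) (volume : Measure ℂ) := by
    refine AEMeasurable.aestronglyMeasurable ?_
    rw [bco, aemeasurable_indicator_iff hm']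
    exact h1
  rw [memLp_two_iff h2]
  have h3 : ∫⁻ z, ‖F.bco U A φ z‖ₑ ^ 2 =
      ∫⁻ z in φ '' (φ.source ∩ U), ‖A (φ.symm z) * F.J φ (φ.symm z)‖ₑ ^ 2 := by
    rw [← lintegral_indicator hm']
    refine lintegral_congr fun z => ?_
    by_cases hz : z ∈ φ '' (φ.source ∩ U)
    · rw [bco, indicator_of_mem hz, indicator_of_mem hz]
    · rw [bco, indicator_of_notMem hz, indicator_of_notMem hz]
      simp
  rw [h3, ← F.lintegral_sq hφ hm inter_subset_left hA.measurable.aemeasurable]
  refine lt_of_le_of_lt ?_ ((memLp_two_iff hA2.1).1 hA2)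
  exact lintegral_mono' (Measure.restrict_mono inter_subset_right le_rfl) le_rfl

lemma bco_weakHol {U : Set S} (hU : MeasurableSet U) {A : S → ℂ} (hA : StronglyMeasurable A)
    {φ : OpenPartialHomeomorph S ℂ} (hφ : φ ∈ X.charts)
    (h : ∀ v, IsTest φ v → tsupport v ⊆ φ '' (φ.source ∩ U) →
      ∫ x in U, A x * conj (F.tf φ v x) ∂F.μ = 0) :
    WeakHol (F.bco U A φ) (φ '' (φ.source ∩ U)) := by
  intro v hv hvc hvU
  have hm : MeasurableSet (φ.source ∩ U) := φ.open_source.measurableSet.inter hU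
  have hm' : MeasurableSet (φ '' (φ.source ∩ U)) := measurableSet_image hm inter_subset_left
  have ht : IsTest φ v := ⟨hv, hvc, hvU.trans (by
    rw [φ.image_source_inter_eq']; exact inter_subset_left)⟩
  have h1 := h v ht hvU
  rw [F.pairing hφ ht hU hA.aestronglyMeasurable] at h1
  rw [← h1, ← integral_indicator hm']
  congr 1
  ext z
  by_cases hz : z ∈ φ '' (φ.source ∩ U)
  · rw [indicator_of_mem hz, bco, indicator_of_mem hz, D, map_sub, map_mul, conj_I, conj_ofReal,
      conj_ofReal]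
    ring
  · rw [indicator_of_notMem hz, bco, indicator_of_notMem hz, mul_zero]

/-- the holomorphic form -/
noncomputable def form {U : Set S} (hU : IsOpen U) {A : S → ℂ} (hA : StronglyMeasurable A)
    (hA2 : MemLp A 2 (F.μ.restrict U))
    (h : ∀ φ ∈ X.charts, ∀ v, IsTest φ v → tsupport v ⊆ φ '' (φ.source ∩ U) →
      ∫ x in U, A x * conj (F.tf φ v x) ∂F.μ = 0) : HoloForm X U where
  coeff φ := reg (F.bco U A φ)
  holo φ hφ := by
    have hl : LocallyIntegrable (F.bco U A φ) volume :=
      (F.bco_memLp hU.measurableSet hA hA2 hφ).locallyIntegrable (by norm_num)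
    rw [← φ.image_source_inter_eq']
    refine weyl hl ?_ (F.bco_weakHol hU.measurableSet hA hφ (h φ hφ))
    rw [φ.image_source_inter_eq']
    exact φ.isOpen_inter_preimage_symm hU
  trans φ hφ ψ hψ x hxU hxφ hxψ := by
    have hl : ∀ φ ∈ X.charts, LocallyIntegrable (F.bco U A φ) volume := fun φ hφ =>
      (F.bco_memLp hU.measurableSet hA hA2 hφ).locallyIntegrable (by norm_num)
    have hd : ∀ φ ∈ X.charts, DifferentiableOn ℂ (reg (F.bco U A φ))
        (φ.target ∩ φ.symm ⁻¹' U) := fun φ hφ => by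
      rw [← φ.image_source_inter_eq']
      refine weyl (hl φ hφ) ?_ (F.bco_weakHol hU.measurableSet hA hφ (h φ hφ))
      rw [φ.image_source_inter_eq']
      exact φ.isOpen_inter_preimage_symm hU
    set O : Set ℂ := φ.target ∩ φ.symm ⁻¹' (ψ.source ∩ U) with hO
    have hOo : IsOpen O := φ.isOpen_inter_preimage_symm (ψ.open_source.inter hU)
    have hτd : DifferentiableOn ℂ (ψ ∘ φ.symm) O :=
      (X.holomorphic φ hφ ψ hψ).mono fun z hz => ⟨hz.1, hz.2.1⟩
    have hτm : MapsTo (ψ ∘ φ.symm) O (ψ.target ∩ ψ.symm ⁻¹' U) := by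
      intro z hz
      refine ⟨ψ.map_source hz.2.1, ?_⟩
      simp only [Function.comp_apply, mem_preimage]
      rw [ψ.left_inv hz.2.1]
      exact hz.2.2
    have c1 : ContinuousOn (reg (F.bco U A φ)) O :=
      (hd φ hφ).continuousOn.mono fun z hz => ⟨hz.1, hz.2.2⟩
    have c2 : ContinuousOn (fun z => reg (F.bco U A ψ) ((ψ ∘ φ.symm) z) *
        deriv (ψ ∘ φ.symm) z) O :=
      ((hd ψ hψ).continuousOn.comp hτd.continuousOn hτm).mul (hτd.deriv hOo).continuousOn
    have hae : reg (F.bco U A φ) =ᵐ[volume.restrict O]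
        fun z => reg (F.bco U A ψ) ((ψ ∘ φ.symm) z) * deriv (ψ ∘ φ.symm) z := by
      have a1 : ∀ᵐ z ∂(volume.restrict O), reg (F.bco U A φ) z = F.bco U A φ z :=
        ae_restrict_of_ae (reg_ae (hl φ hφ))
      have a2 : ∀ᵐ z ∂(volume.restrict O),
          reg (F.bco U A ψ) ((ψ ∘ φ.symm) z) = F.bco U A ψ ((ψ ∘ φ.symm) z) := by
        rw [ae_restrict_iff' hOo.measurableSet]
        have hN : volume {w | reg (F.bco U A ψ) w ≠ F.bco U A ψ w} = 0 :=
          reg_ae (hl ψ hψ)
        set N := {w | reg (F.bco U A ψ) w ≠ F.bco U A ψ w} with hNdef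
        have hσ : DifferentiableOn ℝ (φ ∘ ψ.symm) (N ∩ (ψ.target ∩ ψ.symm ⁻¹' φ.source)) :=
          ((X.holomorphic ψ hψ φ hφ).restrictScalars ℝ).mono inter_subset_right
        have h0 := addHaar_image_eq_zero_of_differentiableOn_of_addHaar_eq_zero
          (volume : Measure ℂ) hσ (measure_mono_null inter_subset_left hN)
        refine measure_mono_null ?_ h0
        intro z hz
        simp only [mem_compl_iff, mem_ofPred_eq, Classical.not_imp] at hz
        refine ⟨(ψ ∘ φ.symm) z, ⟨hz.2, ψ.map_source hz.1.2.1, ?_⟩, ?_⟩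
        · simp only [Function.comp_apply, mem_preimage]
          rw [ψ.left_inv hz.1.2.1]
          exact φ.map_target hz.1.1
        · simp only [Function.comp_apply]
          rw [ψ.left_inv hz.1.2.1, φ.right_inv hz.1.1]
      have a3 : ∀ᵐ z ∂(volume.restrict O), z ∈ O := ae_restrict_mem hOo.measurableSet
      filter_upwards [a1, a2, a3] with z h1 h2 h3
      rw [h1, h2]
      have hx := φ.map_target h3.1
      have m1 : z ∈ φ '' (φ.source ∩ U) := ⟨φ.symm z, ⟨hx, h3.2.2⟩, φ.right_inv h3.1⟩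
      have m2 : (ψ ∘ φ.symm) z ∈ ψ '' (ψ.source ∩ U) := ⟨φ.symm z, h3.2, rfl⟩
      rw [bco, indicator_of_mem m1, bco, indicator_of_mem m2, F.J_trans hφ hψ hx h3.2.1,
        φ.right_inv h3.1]
      simp only [Function.comp_apply]
      rw [ψ.left_inv h3.2.1]
      ring
    have hxO : φ x ∈ O := by
      refine ⟨φ.map_source hxφ, ?_⟩
      rw [mem_preimage, φ.left_inv hxφ]
      exact ⟨hxψ, hxU⟩
    have := Measure.eqOn_open_of_ae_eq hae hOo c1 c2 hxO
    rw [this]
    simp only [Function.comp_apply]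
    rw [φ.left_inv hxφ]

/-- the frame coefficient of a holomorphic form -/
noncomputable def frco {U : Set S} (ω : HoloForm X U) (x : S) : ℂ :=
  ω.coeff (F.Φ (F.idx x)) (F.Φ (F.idx x) x)

lemma frco_mul_J {U : Set S} (ω : HoloForm X U) {φ : OpenPartialHomeomorph S ℂ}
    (hφ : φ ∈ X.charts) {x : S} (hx : x ∈ φ.source) (hxU : x ∈ U) :
    F.frco ω x * F.J φ x = ω.coeff φ (φ x) :=
  (ω.trans φ hφ _ (F.mem _) x hxU hx (F.idx_spec x)).symm

lemma aemeasurable_frco {U : Set S} (hU : IsOpen U) (ω : HoloForm X U) (ν : Measure S) :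
    AEMeasurable (F.frco ω) (ν.restrict U) := by
  have h0 : ν.restrict U = ν.restrict (⋃ n, U ∩ F.P n) := by
    rw [← inter_iUnion, F.iUnion_P, inter_univ]
  rw [h0, aemeasurable_iUnion_iff]
  intro n
  have hm : MeasurableSet (U ∩ F.P n) := hU.measurableSet.inter (F.measurableSet_P n)
  have hc : ContinuousOn (fun x => ω.coeff (F.Φ n) (F.Φ n x)) (U ∩ F.P n) := by
    refine (ω.holo _ (F.mem n)).continuousOn.comp ((F.Φ n).continuousOn.mono ?_) ?_
    · exact inter_subset_right.trans (F.P_subset n)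
    · intro x hx
      have := F.P_subset n hx.2
      refine ⟨(F.Φ n).map_source this, ?_⟩
      rw [mem_preimage, (F.Φ n).left_inv this]
      exact hx.1
  refine (hc.aemeasurable hm).congr ?_
  rw [Filter.EventuallyEq, ae_restrict_iff' hm]
  refine Eventually.of_forall fun x hx => ?_
  rw [frco, show F.idx x = n from hx.2]

lemma frco_lintegral {U : Set S} (hU : IsOpen U) (ω : HoloForm X U)
    {φ : OpenPartialHomeomorph S ℂ} (hφ : φ ∈ X.charts) {W : Set S} (hW : MeasurableSet W)
    (hWs : W ⊆ φ.source ∩ U) :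
    ∫⁻ x in W, ‖F.frco ω x‖ₑ ^ 2 ∂F.μ = ∫⁻ z in φ '' W, ‖ω.coeff φ z‖ₑ ^ 2 := by
  have h1 : W ⊆ φ.source := hWs.trans inter_subset_left
  rw [F.lintegral_sq hφ hW h1
    ((F.aemeasurable_frco hU ω F.μ).mono_measure (Measure.restrict_mono (hWs.trans inter_subset_right) le_rfl))]
  refine setLIntegral_congr_fun (measurableSet_image hW h1) fun z hz => ?_
  obtain ⟨x, hx, rfl⟩ := hz
  rw [φ.left_inv (h1 hx), F.frco_mul_J ω hφ (h1 hx) (hWs hx).2]

lemma isL2_of_memLp {U : Set S} (hU : IsOpen U) (ω : HoloForm X U)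
    (h : MemLp (F.frco ω) 2 (F.μ.restrict U)) : ω.IsL2 := by
  refine ⟨(F.μ.restrict U).withDensity fun x => ‖F.frco ω x‖ₑ ^ 2, ?_, ?_⟩
  · intro φ hφ W hWs hW
    rw [withDensity_apply _ hW, Measure.restrict_restrict hW,
      inter_eq_left.2 (hWs.trans inter_subset_right)]
    exact F.frco_lintegral hU ω hφ hW hWs
  · rw [withDensity_apply _ hU.measurableSet, Measure.restrict_restrict hU.measurableSet,
      inter_self]
    exact (memLp_two_iff h.1).1 h

end Frame

end Pool.Agent.Helper23.Flat
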