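import Pool.Agent.Helper23.Flat.TestForm

set_option autoImplicit false
set_option linter.unusedSectionVars false

/-!
The orthogonal projection.
-/

open Set Topology MeasureTheory Filter Metric Complex
open scoped ContDiff ComplexConjugate
open Pool.Agent.Helper76.Flat

namespace Pool.Agent.Helper23.Flat

section L2

variable {α : Type*} {m : MeasurableSpace α} {ν : Measure α}

lemma integrable_pair {g h : α → ℂ} (hg : MemLp g 2 ν) (hh : MemLp h 2 ν) :
    Integrable (fun x => h x * conj (g x)) ν := by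
  have h1 : MemLp (fun x => conj (g x)) 2 ν := hg.star
  exact hh.integrable_mul h1

lemma inner_toLp_re {g h : α → ℂ} (hg : MemLp g 2 ν) (hh : MemLp h 2 ν) :
    inner ℝ (hg.toLp g) (hh.toLp h) = (∫ x, h x * conj (g x) ∂ν).re := by
  rw [L2.inner_def]
  have h1 : (∫ x, h x * conj (g x) ∂ν).re = ∫ x, (h x * conj (g x)).re ∂ν := by
    have := integral_re (μ := ν) (integrable_pair hg hh)
    simpa using this.symm
  rw [h1]
  refine integral_congr_ae ?_
  filter_upwards [hg.coeFn_toLp, hh.coeFn_toLp] with x h2 h3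
  rw [h2, h3, Complex.inner]

lemma inner_toLp_im {g h : α → ℂ} (hg : MemLp g 2 ν) (hh : MemLp h 2 ν) :
    inner ℝ ((hg.const_mul I).toLp (fun x => I * g x)) (hh.toLp h) =
      (∫ x, h x * conj (g x) ∂ν).im := by
  rw [inner_toLp_re]
  have h1 : ∫ x, h x * conj (I * g x) ∂ν = -I * ∫ x, h x * conj (g x) ∂ν := by
    rw [← integral_const_mul]
    congr 1
    ext x
    rw [map_mul, conj_I]
    ring
  rw [h1]
  simp

lemma pair_symm {g h : α → ℂ} :
    ∫ x, h x * conj (g x) ∂ν = conj (∫ x, g x * conj (h x) ∂ν) := by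
  rw [← integral_conj]
  congr 1
  ext x
  simp [mul_comm]

end L2

variable {S : Type*} [TopologicalSpace S]

namespace Frame

variable {X : RiemannSurfaceStructure S} (F : Frame X) [MeasurableSpace S] [BorelSpace S]

lemma exists_proj [T2Space S] {U : Set S} (hU : MeasurableSet U) {κ : OpenPartialHomeomorph S ℂ}
    (hκ : κ ∈ X.charts) {f : ℂ → ℝ} (hf : IsTest κ f) :
    ∃ A : S → ℂ, StronglyMeasurable A ∧ MemLp A 2 (F.μ.restrict U) ∧
    (∀ φ ∈ X.charts, ∀ v, IsTest φ v → tsupport v ⊆ φ '' (φ.source ∩ U) →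
      ∫ x in U, A x * conj (F.tf φ v x) ∂F.μ = 0) ∧
    (∀ φ ∈ X.charts, ∀ w, IsTest φ w →
      (∫ x in U, A x * conj (F.tf φ w x) ∂F.μ).im =
        (∫ x in U, F.tf κ f x * conj (F.tf φ w x) ∂F.μ).im) := by
  set ν := F.μ.restrict U with hν
  have hml : ∀ φ ∈ X.charts, ∀ v, IsTest φ v → MemLp (F.tf φ v) 2 ν := fun φ hφ v hv =>
    (F.memLp_tf hφ hv).restrict U
  set T : Set (Lp ℂ 2 ν) := {t | ∃ φ, ∃ hφ : φ ∈ X.charts, ∃ v, ∃ hv : IsTest φ v,
    tsupport v ⊆ φ '' (φ.source ∩ U) ∧ t = (hml φ hφ v hv).toLp (F.tf φ v)} with hT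
  set E : Submodule ℝ (Lp ℂ 2 ν) := (Submodule.span ℝ T).topologicalClosure with hE
  have hTE : T ⊆ E := Submodule.subset_span.trans (Submodule.le_topologicalClosure _)
  have : CompleteSpace E := (Submodule.isClosed_topologicalClosure _).completeSpace_coe
  -- the elements of `E` are killed by the imaginary parts of the pairings
  have hkill : ∀ φ, ∀ hφ : φ ∈ X.charts, ∀ w, ∀ hw : IsTest φ w, ∀ p ∈ E,
      inner ℝ (((hml φ hφ w hw).const_mul I).toLp (fun x => I * F.tf φ w x)) p = 0 := by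
    intro φ hφ w hw
    set y := ((hml φ hφ w hw).const_mul I).toLp (fun x => I * F.tf φ w x) with hy
    have h1 : E ≤ (Submodule.span ℝ {y})ᗮ := by
      refine Submodule.topologicalClosure_minimal _ ?_ (Submodule.isClosed_orthogonal _)
      rw [Submodule.span_le]
      rintro t ⟨ψ, hψ, v, hv, hvU, rfl⟩
      rw [SetLike.mem_coe, Submodule.mem_orthogonal_singleton_iff_inner_right, hy,
        inner_toLp_im (hml φ hφ w hw), pair_symm, conj_im, F.stokes_pair hψ hφ hv hw hU hvU, neg_zero]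
    intro p hp
    exact Submodule.mem_orthogonal_singleton_iff_inner_right.1 (h1 hp)
  obtain ⟨p, hp, η, hη, hsum⟩ :=
    E.exists_add_mem_mem_orthogonal ((hml κ hκ f hf).toLp (F.tf κ f))
  have hmA : MemLp (η : S → ℂ) 2 ν := Lp.memLp η
  have hηL : hmA.toLp (η : S → ℂ) = η := Lp.toLp_coeFn η hmA
  have him : ∀ φ ∈ X.charts, ∀ w, IsTest φ w →
      (∫ x in U, (η : S → ℂ) x * conj (F.tf φ w x) ∂F.μ).im =
        (∫ x in U, F.tf κ f x * conj (F.tf φ w x) ∂F.μ).im := by
    intro φ hφ w hw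
    rw [← inner_toLp_im (hml φ hφ w hw) hmA, ← inner_toLp_im (hml φ hφ w hw) (hml κ hκ f hf),
      hsum, hηL, inner_add_right, hkill φ hφ w hw p hp, zero_add]
  refine ⟨(η : S → ℂ), Lp.stronglyMeasurable η, hmA, ?_, him⟩
  intro φ hφ v hv hvU
  apply Complex.ext
  · rw [← inner_toLp_re (hml φ hφ v hv) hmA, hηL, zero_re]
    exact (Submodule.mem_orthogonal _ _).1 hη _ (hTE ⟨φ, hφ, v, hv, hvU, rfl⟩)
  · rw [him φ hφ v hv, F.stokes_pair hφ hκ hv hf hU hvU, zero_im]

end Frame

end Pool.Agent.Helper23.Flat
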