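import Mathlib

set_option autoImplicit false

/-!
Planar Stokes formula for test functions and the chain rule for `2 d/dz`.
-/

open Set Topology MeasureTheory Filter Metric Complex
open scoped ContDiff ComplexConjugate

namespace Pool.Agent.Helper23.Flat

lemma two_le_infty : (2 : WithTop ℕ∞) ≤ ∞ := by
  exact ENat.LEInfty.out

/-- `2 d/dz` of a real function -/
noncomputable def D (v : ℂ → ℝ) (z : ℂ) : ℂ :=
  ((fderiv ℝ v z 1 : ℝ) : ℂ) - I * ((fderiv ℝ v z I : ℝ) : ℂ)

lemma D_congr {v w : ℂ → ℝ} {z : ℂ} (h : v =ᶠ[𝓝 z] w) : D v z = D w z := by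
  rw [D, D, h.fderiv_eq]

lemma D_comp {v : ℂ → ℝ} {h : ℂ → ℂ} {z : ℂ} (hv : DifferentiableAt ℝ v (h z))
    (hh : DifferentiableAt ℂ h z) : D (fun w => v (h w)) z = D v (h z) * deriv h z := by
  have h1 : HasFDerivAt (fun w => v (h w)) ((fderiv ℝ v (h z)).comp
      (((1 : ℂ →L[ℂ] ℂ).smulRight (deriv h z)).restrictScalars ℝ : ℂ →L[ℝ] ℂ)) z :=
    hv.hasFDerivAt.comp z (hh.hasDerivAt.hasFDerivAt.restrictScalars ℝ)
  rw [D, D, h1.fderiv]
  set c := deriv h z with hc
  have e1 : ((fderiv ℝ v (h z)).comp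
      (((1 : ℂ →L[ℂ] ℂ).smulRight c).restrictScalars ℝ : ℂ →L[ℝ] ℂ)) 1 =
      c.re * fderiv ℝ v (h z) 1 + c.im * fderiv ℝ v (h z) I := by
    have : (((1 : ℂ →L[ℂ] ℂ).smulRight c).restrictScalars ℝ : ℂ →L[ℝ] ℂ) 1 =
        c.re • (1 : ℂ) + c.im • I := by
      simp
    rw [ContinuousLinearMap.comp_apply, this, map_add, map_smul, map_smul, smul_eq_mul, smul_eq_mul]
  have e2 : ((fderiv ℝ v (h z)).comp
      (((1 : ℂ →L[ℂ] ℂ).smulRight c).restrictScalars ℝ : ℂ →L[ℝ] ℂ)) I =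
      -c.im * fderiv ℝ v (h z) 1 + c.re * fderiv ℝ v (h z) I := by
    have : (((1 : ℂ →L[ℂ] ℂ).smulRight c).restrictScalars ℝ : ℂ →L[ℝ] ℂ) I =
        (-c.im) • (1 : ℂ) + c.re • I := by
      apply Complex.ext <;> simp
    rw [ContinuousLinearMap.comp_apply, this, map_add, map_smul, map_smul, smul_eq_mul, smul_eq_mul]
  rw [e1, e2]
  conv_rhs => rw [← re_add_im c]
  push_cast
  linear_combination ((c.im : ℂ) * (fderiv ℝ v (h z) I : ℝ)) * I_mul_I

lemma D_continuous {v : ℂ → ℝ} (hv : ContDiff ℝ ∞ v) : Continuous (D v) := by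
  have h1 : ContDiff ℝ 1 v := hv.of_le (by exact_mod_cast le_top)
  have h2 : ∀ ξ : ℂ, Continuous fun z => fderiv ℝ v z ξ := fun ξ =>
    (h1.continuous_fderiv one_ne_zero).clm_apply continuous_const
  exact (continuous_ofReal.comp (h2 1)).sub (continuous_const.mul (continuous_ofReal.comp (h2 I)))

lemma D_support {v : ℂ → ℝ} {z : ℂ} (hz : z ∉ tsupport v) : D v z = 0 := by
  have h : fderiv ℝ v z = 0 := by
    by_contra h
    exact hz (support_fderiv_subset ℝ h)
  simp [D, h]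

lemma D_tsupport (v : ℂ → ℝ) : tsupport (D v) ⊆ tsupport v := by
  refine closure_minimal ?_ (isClosed_tsupport v)
  intro z hz
  by_contra h
  exact hz (D_support h)

lemma D_hasCompactSupport {v : ℂ → ℝ} (hv : HasCompactSupport v) : HasCompactSupport (D v) :=
  hv.of_isClosed_subset (isClosed_tsupport _) (D_tsupport v)

lemma integrable_mul_of_tsupport {p q : ℂ → ℝ} {O : Set ℂ} (hO : IsOpen O)
    (hp : ContinuousOn p O) (hq : Continuous q) (hqc : HasCompactSupport q)
    (hqO : tsupport q ⊆ O) : Integrable (fun z => p z * q z) := by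
  refine Continuous.integrable_of_hasCompactSupport ?_ ?_
  · rw [continuous_iff_continuousAt]
    intro z
    by_cases hz : z ∈ tsupport q
    · exact (hp.continuousAt (hO.mem_nhds (hqO hz))).mul hq.continuousAt
    · have h1 : (fun z => p z * q z) =ᶠ[𝓝 z] fun _ => 0 := by
        filter_upwards [(isClosed_tsupport q).isOpen_compl.mem_nhds hz] with w hw
        rw [image_eq_zero_of_notMem_tsupport hw, mul_zero]
      exact continuousAt_const.congr h1.symm
  · exact hqc.mul_left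

/-- Stokes' formula: the integral of `dw ∧ dv` vanishes if `v` is a test function. -/
lemma stokes {v w : ℂ → ℝ} {O A : Set ℂ} (hO : IsOpen O) (hv : ContDiff ℝ ∞ v)
    (hvc : HasCompactSupport v) (hvO : tsupport v ⊆ O) (hw : ContDiffOn ℝ ∞ w O)
    (hA : tsupport v ⊆ A) : (∫ z in A, D w z * conj (D v z)).im = 0 := by
  have h0 : ∫ z in A, D w z * conj (D v z) = ∫ z, D w z * conj (D v z) := by
    refine setIntegral_eq_integral_of_forall_compl_eq_zero fun z hz => ?_
    rw [D_support (fun h => hz (hA h)), map_zero, mul_zero]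
  rw [h0]
  have hv1 : ContDiff ℝ 1 v := hv.of_le (by exact_mod_cast le_top)
  have hcv : ∀ ξ : ℂ, Continuous fun z => fderiv ℝ v z ξ := fun ξ =>
    (hv1.continuous_fderiv one_ne_zero).clm_apply continuous_const
  have hfs : ∀ ξ : ℂ, tsupport (fun z => fderiv ℝ v z ξ) ⊆ tsupport v := fun ξ =>
    tsupport_fderiv_apply_subset ℝ ξ
  have hfc : ∀ ξ : ℂ, HasCompactSupport (fun z => fderiv ℝ v z ξ) := fun ξ =>
    hvc.fderiv_apply ℝ ξ
  have hdw : ContDiffOn ℝ 1 (fderiv ℝ w) O := hw.fderiv_of_isOpen hO (by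
    rw [show (1 : WithTop ℕ∞) + 1 = 2 by norm_num]; exact two_le_infty)
  have hdwξ : ∀ ξ : ℂ, ContDiffOn ℝ 1 (fun z => fderiv ℝ w z ξ) O := fun ξ =>
    hdw.clm_apply contDiffOn_const
  have hcw : ∀ ξ : ℂ, ContinuousOn (fun z => fderiv ℝ w z ξ) O := fun ξ => (hdwξ ξ).continuousOn
  have hcw2 : ∀ ξ ζ : ℂ, ContinuousOn (fun z => fderiv ℝ (fun z => fderiv ℝ w z ξ) z ζ) O :=
    fun ξ ζ => ((hdwξ ξ).continuousOn_fderiv_of_isOpen hO le_rfl).clm_apply continuousOn_const
  have ibp : ∀ ξ ζ : ℂ, ∫ z, fderiv ℝ w z ξ * fderiv ℝ v z ζ =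
      - ∫ z, fderiv ℝ (fun z => fderiv ℝ w z ξ) z ζ * v z := by
    intro ξ ζ
    refine integral_mul_fderiv_eq_neg_fderiv_mul_of_integrable ?_ ?_ ?_ ?_ ?_
    · exact integrable_mul_of_tsupport hO (hcw2 ξ ζ) hv.continuous hvc hvO
    · exact integrable_mul_of_tsupport hO (hcw ξ) (hcv ζ) (hfc ζ) ((hfs ζ).trans hvO)
    · exact integrable_mul_of_tsupport hO (hcw ξ) hv.continuous hvc hvO
    · intro z hz
      exact ((hdwξ ξ).differentiableOn one_ne_zero).differentiableAt (hO.mem_nhds (hvO hz))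
    · intro z _
      exact (hv1.differentiable one_ne_zero).differentiableAt
  have hsym : ∀ z, fderiv ℝ (fun z => fderiv ℝ w z 1) z I * v z =
      fderiv ℝ (fun z => fderiv ℝ w z I) z 1 * v z := by
    intro z
    by_cases hz : z ∈ tsupport v
    · congr 1
      have hzO := hvO hz
      have hd : DifferentiableAt ℝ (fderiv ℝ w) z :=
        (hdw.differentiableOn one_ne_zero).differentiableAt (hO.mem_nhds hzO)
      have e : ∀ ξ ζ : ℂ, fderiv ℝ (fun z => fderiv ℝ w z ξ) z ζ = fderiv ℝ (fderiv ℝ w) z ζ ξ := by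
        intro ξ ζ
        rw [fderiv_clm_apply hd (differentiableAt_const ξ)]
        simp
      rw [e, e]
      have hs : IsSymmSndFDerivAt ℝ w z := by
        refine ContDiffAt.isSymmSndFDerivAt (n := ∞) (hw.contDiffAt (hO.mem_nhds hzO)) ?_
        simp only [minSmoothness_of_isRCLikeNormedField]
        exact two_le_infty
      exact hs I 1
    · rw [image_eq_zero_of_notMem_tsupport hz, mul_zero, mul_zero]
  have hint : Integrable (fun z => D w z * conj (D v z)) := by
    have i1 : ∀ ξ ζ : ℂ, Integrable (fun z => ((fderiv ℝ w z ξ * fderiv ℝ v z ζ : ℝ) : ℂ)) :=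
      fun ξ ζ => (integrable_mul_of_tsupport hO (hcw ξ) (hcv ζ) (hfc ζ) ((hfs ζ).trans hvO)).ofReal
    have : (fun z => D w z * conj (D v z)) = fun z =>
        ((fderiv ℝ w z 1 * fderiv ℝ v z 1 : ℝ) : ℂ) + ((fderiv ℝ w z I * fderiv ℝ v z I : ℝ) : ℂ) +
        I * (((fderiv ℝ w z 1 * fderiv ℝ v z I : ℝ) : ℂ) - ((fderiv ℝ w z I * fderiv ℝ v z 1 : ℝ) : ℂ)) := by
      ext z
      simp only [D, map_sub, map_mul, conj_ofReal, conj_I]
      push_cast
      linear_combination (-(fderiv ℝ w z I : ℂ) * (fderiv ℝ v z I : ℝ)) * I_mul_I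
    rw [this]
    exact ((i1 1 1).add (i1 I I)).add (((i1 1 I).sub (i1 I 1)).const_mul I)
  have him : (∫ z, D w z * conj (D v z)).im = ∫ z, (D w z * conj (D v z)).im := by
    have := integral_im (μ := volume) hint
    simpa using this.symm
  rw [him]
  have e3 : ∀ z, (D w z * conj (D v z)).im =
      fderiv ℝ w z 1 * fderiv ℝ v z I - fderiv ℝ w z I * fderiv ℝ v z 1 := by
    intro z
    simp [D]
    ring
  simp_rw [e3]
  rw [integral_sub, ibp, ibp]
  · simp_rw [hsym]
    ring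
  · exact integrable_mul_of_tsupport hO (hcw 1) (hcv I) (hfc I) ((hfs I).trans hvO)
  · exact integrable_mul_of_tsupport hO (hcw I) (hcv 1) (hfc 1) ((hfs 1).trans hvO)

end Pool.Agent.Helper23.Flat
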