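import Mathlib

set_option autoImplicit false

/-!
Weyl's lemma for the Cauchy-Riemann operator: a locally integrable function which is weakly
holomorphic on an open set is almost everywhere equal to a holomorphic function.
-/

open Set Topology MeasureTheory Filter Metric Complex
open scoped Convolution ContDiff

namespace Pool.Agent.Helper23.Flat

/-- weak holomorphy -/
def WeakHol (a : ℂ → ℂ) (V : Set ℂ) : Prop :=
  ∀ v : ℂ → ℝ, ContDiff ℝ ∞ v → HasCompactSupport v → tsupport v ⊆ V →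
    ∫ z, (((fderiv ℝ v z 1 : ℝ) : ℂ) + I * ((fderiv ℝ v z I : ℝ) : ℂ)) * a z = 0

/-- convolution with a real kernel -/
noncomputable def cv (ρ : ℂ → ℝ) (a : ℂ → ℂ) : ℂ → ℂ :=
  a ⋆[(ContinuousLinearMap.lsmul ℝ ℝ : ℝ →L[ℝ] ℂ →L[ℝ] ℂ).flip, volume] ρ

lemma cv_eq (ρ : ℂ → ℝ) (a : ℂ → ℂ) :
    cv ρ a = ρ ⋆[(ContinuousLinearMap.lsmul ℝ ℝ : ℝ →L[ℝ] ℂ →L[ℝ] ℂ), volume] a := by
  unfold cv
  rw [convolution_flip]

lemma cv_apply (ρ : ℂ → ℝ) (a : ℂ → ℂ) (z : ℂ) :
    cv ρ a z = ∫ t, ρ (z - t) • a t := rfl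

lemma fderiv_cv {ρ : ℂ → ℝ} {a : ℂ → ℂ} (hρ : ContDiff ℝ 1 ρ) (hρc : HasCompactSupport ρ)
    (ha : LocallyIntegrable a volume) (z ξ : ℂ) :
    DifferentiableAt ℝ (cv ρ a) z ∧
      fderiv ℝ (cv ρ a) z ξ = ∫ t, (fderiv ℝ ρ (z - t) ξ) • a t := by
  have h := hρc.hasFDerivAt_convolution_right
    ((ContinuousLinearMap.lsmul ℝ ℝ : ℝ →L[ℝ] ℂ →L[ℝ] ℂ).flip) (μ := volume) ha hρ z
  refine ⟨h.differentiableAt, ?_⟩
  rw [show cv ρ a = a ⋆[(ContinuousLinearMap.lsmul ℝ ℝ : ℝ →L[ℝ] ℂ →L[ℝ] ℂ).flip, volume] ρ from rfl,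
    h.fderiv, convolution_precompR_apply _ ha (hρc.fderiv ℝ) (hρ.continuous_fderiv one_ne_zero)]
  rfl

/-- the convolution of a weakly holomorphic function is holomorphic -/
lemma cv_differentiableAt {ρ : ℂ → ℝ} {a : ℂ → ℂ} {V : Set ℂ} (hρ : ContDiff ℝ ∞ ρ)
    (hρc : HasCompactSupport ρ) (ha : LocallyIntegrable a volume) (hw : WeakHol a V) {ε : ℝ}
    (hε : tsupport ρ ⊆ closedBall 0 ε) {z : ℂ} (hz : closedBall z ε ⊆ V) :
    DifferentiableAt ℂ (cv ρ a) z := by
  have hρ1 : ContDiff ℝ 1 ρ := hρ.of_le (by exact_mod_cast le_top)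
  rw [differentiableAt_complex_iff_differentiableAt_real]
  refine ⟨(fderiv_cv hρ1 hρc ha z 1).1, ?_⟩
  rw [(fderiv_cv hρ1 hρc ha z 1).2, (fderiv_cv hρ1 hρc ha z I).2]
  -- the test function
  set v : ℂ → ℝ := fun t => ρ (z - t) with hv
  have hvs : ContDiff ℝ ∞ v := hρ.comp (contDiff_const.sub contDiff_id)
  have hsub : tsupport v ⊆ closedBall z ε := by
    refine closure_minimal ?_ isClosed_closedBall
    intro t ht
    have h1 : z - t ∈ tsupport ρ := subset_closure (by simpa [hv] using ht)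
    have h2 := hε h1
    rw [mem_closedBall, dist_zero_right] at h2
    rw [mem_closedBall, dist_comm, dist_eq_norm]
    exact h2
  have hvc : HasCompactSupport v :=
    HasCompactSupport.of_support_subset_isCompact (isCompact_closedBall z ε)
      (subset_closure.trans hsub)
  have key := hw v hvs hvc (hsub.trans hz)
  have hfd : ∀ t ξ, fderiv ℝ v t ξ = - fderiv ℝ ρ (z - t) ξ := by
    intro t ξ
    have h1 : HasFDerivAt v ((fderiv ℝ ρ (z - t)).comp (-(ContinuousLinearMap.id ℝ ℂ))) t := by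
      have h2 : HasFDerivAt (fun t : ℂ => z - t) (-(ContinuousLinearMap.id ℝ ℂ)) t :=
        (hasFDerivAt_id t).const_sub z
      have h3 : DifferentiableAt ℝ ρ (z - t) :=
        (hρ1.differentiable one_ne_zero).differentiableAt
      exact h3.hasFDerivAt.comp t h2
    rw [h1.fderiv]
    simp
  simp_rw [hfd] at key
  have hint : ∀ ξ : ℂ, Integrable (fun t => (fderiv ℝ ρ (z - t) ξ) • a t) := by
    intro ξ
    have hc : Continuous fun t => fderiv ℝ ρ (z - t) ξ :=
      ((hρ1.continuous_fderiv one_ne_zero).comp (continuous_const.sub continuous_id)).clm_apply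
        continuous_const
    have hcs : HasCompactSupport fun t => fderiv ℝ ρ (z - t) ξ := by
      have : (fun t => fderiv ℝ ρ (z - t) ξ) = fun t => - fderiv ℝ v t ξ := by
        ext t; rw [hfd, neg_neg]
      rw [this]
      have h4 := hvc.fderiv_apply ℝ ξ
      exact h4.neg
    exact ha.integrable_smul_left_of_hasCompactSupport hc hcs
  have h1 : ∫ t, ((((-fderiv ℝ ρ (z - t) 1 : ℝ)) : ℂ) + I * ((-fderiv ℝ ρ (z - t) I : ℝ) : ℂ)) * a t =
      -(∫ t, (fderiv ℝ ρ (z - t) 1) • a t) - I * ∫ t, (fderiv ℝ ρ (z - t) I) • a t := by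
    have h3 : Integrable (fun t => -((fderiv ℝ ρ (z - t) 1) • a t)) := (hint 1).neg
    rw [← integral_const_mul, ← integral_neg, ← integral_sub h3 ((hint I).const_mul I)]
    congr 1
    ext t
    simp only [ofReal_neg, real_smul]
    ring
  rw [h1] at key
  rw [smul_eq_mul]
  have h2 : ∫ t, (fderiv ℝ ρ (z - t) 1) • a t = - (I * ∫ t, (fderiv ℝ ρ (z - t) I) • a t) := by
    linear_combination -key
  rw [h2]
  have hI : I * I = -1 := I_mul_I
  linear_combination (∫ t, (fderiv ℝ ρ (z - t) I) • a t) * hI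

open Real in
/-- mean value property with a radial kernel -/
lemma integral_radial {R : ℝ → ℝ} {h : ℂ → ℂ} {z : ℂ} {ε : ℝ}
    (hR : ∀ r, ε < r → R r = 0) (hh : DifferentiableOn ℂ h (closedBall z ε)) :
    ∫ w, R ‖w‖ • (h (z + w) - h z) = 0 := by
  rw [← Complex.integral_comp_polarCoord_symm]
  rw [show polarCoord.target = Ioi (0 : ℝ) ×ˢ Ioo (-π) π from rfl]
  by_cases hi : IntegrableOn (fun p : ℝ × ℝ => p.1 • (R ‖Complex.polarCoord.symm p‖ •
      (h (z + Complex.polarCoord.symm p) - h z))) (Ioi (0 : ℝ) ×ˢ Ioo (-π) π)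
      ((volume : Measure ℝ).prod (volume : Measure ℝ))
  swap
  · exact integral_undef hi
  rw [Measure.volume_eq_prod, setIntegral_prod _ hi]
  refine setIntegral_eq_zero_of_forall_eq_zero fun r hr => ?_
  have hr0 : (0 : ℝ) < r := hr
  by_cases hrε : ε < r
  · refine setIntegral_eq_zero_of_forall_eq_zero fun θ _ => ?_
    rw [norm_polarCoord_symm, abs_of_pos hr0, hR r hrε]
    simp
  push Not at hrε
  have h1 : ∀ θ : ℝ, r • (R ‖Complex.polarCoord.symm (r, θ)‖ •
      (h (z + Complex.polarCoord.symm (r, θ)) - h z)) =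
      (r * R r) • (h (circleMap z r θ) - h z) := by
    intro θ
    rw [norm_polarCoord_symm, abs_of_pos hr0, smul_smul]
    congr 3
    rw [Complex.polarCoord_symm_apply, circleMap, Complex.exp_mul_I]
    push_cast
    rfl
  simp_rw [h1]
  rw [integral_smul]
  have hdiff : DiffContOnCl ℂ h (ball z |r|) := by
    rw [abs_of_pos hr0]
    exact hh.diffContOnCl_ball (closedBall_subset_closedBall hrε)
  have hmv := hdiff.circleAverage
  have hcont : Continuous fun θ : ℝ => h (circleMap z r θ) := by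
    refine hh.continuousOn.comp_continuous (continuous_circleMap z r) fun θ => ?_
    rw [mem_closedBall, dist_eq_norm, circleMap_sub_center, norm_circleMap_zero, abs_of_pos hr0]
    exact hrε
  have h2 : ∫ θ in Ioo (-π) π, (h (circleMap z r θ) - h z) = 0 := by
    rw [← integral_Ioc_eq_integral_Ioo, ← intervalIntegral.integral_of_le (by linarith [pi_pos])]
    rw [intervalIntegral.integral_sub (hcont.intervalIntegrable _ _) (by simp)]
    have hper : Function.Periodic (fun θ : ℝ => h (circleMap z r θ)) (2 * π) :=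
      (periodic_circleMap z r).comp h
    have h3 := hper.intervalIntegral_add_eq (-π) 0
    rw [show -π + 2 * π = π by ring, zero_add] at h3
    rw [h3]
    rw [circleAverage_def] at hmv
    have h4 : ∫ θ in (0 : ℝ)..2 * π, h (circleMap z r θ) = (2 * π) • h z := by
      rw [← hmv, smul_smul, mul_inv_cancel₀ (by positivity), one_smul]
    rw [h4]
    simp only [intervalIntegral.integral_const]
    rw [show π - -π = 2 * π by ring, sub_self]
  rw [h2, smul_zero]

/-- mean value property for the convolution with a radial kernel of integral one -/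
lemma cv_radial {R : ℝ → ℝ} {ρ : ℂ → ℝ} (hρR : ∀ w, ρ w = R ‖w‖) (hρ : Continuous ρ)
    (hρc : HasCompactSupport ρ) (hint : ∫ w, ρ w = 1) {h : ℂ → ℂ} (hcont : Continuous h) {z : ℂ}
    {ε : ℝ} (hR : ∀ r, ε < r → R r = 0) (hh : DifferentiableOn ℂ h (closedBall z ε)) :
    cv ρ h z = h z := by
  rw [cv_apply, ← integral_add_left_eq_self _ z]
  have h1 : ∀ w, ρ (z - (z + w)) • h (z + w) = R ‖w‖ • (h (z + w) - h z) + ρ w • h z := by
    intro w
    rw [hρR, hρR w, show z - (z + w) = -w by ring, norm_neg, ← smul_add, sub_add_cancel]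
  simp_rw [h1]
  rw [integral_add, integral_radial hR hh, zero_add, integral_smul_const, hint, one_smul]
  · simp_rw [← hρR]
    refine Continuous.integrable_of_hasCompactSupport ?_ ?_
    · exact hρ.smul ((hcont.comp (continuous_const.add continuous_id)).sub continuous_const)
    · exact hρc.smul_right
  · refine Continuous.integrable_of_hasCompactSupport (hρ.smul continuous_const) ?_
    exact hρc.smul_right

lemma locInt_norm {a : ℂ → ℂ} (ha : LocallyIntegrable a volume) :
    LocallyIntegrable (fun x => ‖a x‖) volume := by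
  intro x
  obtain ⟨s, hs, h⟩ := ha x
  exact ⟨s, hs, h.norm⟩

lemma conv_assoc {φ ρ : ℂ → ℝ} (hφ : Continuous φ) (hφc : HasCompactSupport φ)
    (hρ : Continuous ρ) (hρc : HasCompactSupport ρ) {a : ℂ → ℂ} (ha : LocallyIntegrable a volume)
    (z : ℂ) :
    ((φ ⋆[ContinuousLinearMap.mul ℝ ℝ, volume] ρ) ⋆[(ContinuousLinearMap.lsmul ℝ ℝ : ℝ →L[ℝ] ℂ →L[ℝ] ℂ), volume] a) z =
    (φ ⋆[(ContinuousLinearMap.lsmul ℝ ℝ : ℝ →L[ℝ] ℂ →L[ℝ] ℂ), volume]
      (ρ ⋆[(ContinuousLinearMap.lsmul ℝ ℝ : ℝ →L[ℝ] ℂ →L[ℝ] ℂ), volume] a)) z := by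
  refine convolution_assoc _ _ _ _ ?_ hφ.aestronglyMeasurable hρ.aestronglyMeasurable
    ha.aestronglyMeasurable ?_ ?_ ?_
  · intro x y z
    simp [mul_assoc]
  · exact Eventually.of_forall
      (hφc.convolutionExists_left _ hφ hρ.locallyIntegrable)
  · exact Eventually.of_forall
      (hρc.norm.convolutionExists_left _ hρ.norm (locInt_norm ha))
  · have h1 : Continuous ((fun x => ‖ρ x‖) ⋆[ContinuousLinearMap.mul ℝ ℝ, volume] fun x => ‖a x‖) :=
      hρc.norm.continuous_convolution_left _ hρ.norm (locInt_norm ha)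
    exact hφc.norm.convolutionExists_left _ hφ.norm h1.locallyIntegrable z

lemma cv_comm {φ ρ : ℂ → ℝ} (hφ : Continuous φ) (hφc : HasCompactSupport φ)
    (hρ : Continuous ρ) (hρc : HasCompactSupport ρ) {a : ℂ → ℂ} (ha : LocallyIntegrable a volume)
    (z : ℂ) : cv φ (cv ρ a) z = cv ρ (cv φ a) z := by
  simp only [cv_eq]
  rw [← conv_assoc hφ hφc hρ hρc ha, ← conv_assoc hρ hρc hφ hφc ha]
  have : (φ ⋆[ContinuousLinearMap.mul ℝ ℝ, volume] ρ) = (ρ ⋆[ContinuousLinearMap.mul ℝ ℝ, volume] φ) := by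
    rw [← convolution_flip]
    congr 1
    ext
    simp
  rw [this]

lemma cv_continuous {ρ : ℂ → ℝ} (hρ : Continuous ρ) (hρc : HasCompactSupport ρ) {a : ℂ → ℂ}
    (ha : LocallyIntegrable a volume) : Continuous (cv ρ a) := by
  rw [cv_eq]
  exact hρc.continuous_convolution_left _ hρ ha

/-- a radial profile -/
noncomputable def prof (ε r : ℝ) : ℝ := Real.smoothTransition (1 - (ε⁻¹) ^ 2 * r ^ 2)

lemma prof_zero {ε r : ℝ} (hε : 0 < ε) (hr : ε < r) : prof ε r = 0 := by
  refine Real.smoothTransition.zero_of_nonpos ?_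
  have h1 : 1 ≤ ε⁻¹ * r := by
    rw [inv_mul_eq_div, one_le_div hε]
    exact hr.le
  nlinarith [mul_pow ε⁻¹ r 2]

lemma exists_radial {ε : ℝ} (hε : 0 < ε) : ∃ (R : ℝ → ℝ) (ρ : ℂ → ℝ), (∀ w, ρ w = R ‖w‖) ∧
    ContDiff ℝ ∞ ρ ∧ HasCompactSupport ρ ∧ tsupport ρ ⊆ closedBall 0 ε ∧ (∫ w, ρ w = 1) ∧
    (∀ r, ε < r → R r = 0) := by
  set u : ℂ → ℝ := fun w => prof ε ‖w‖ with hu
  have hus : ContDiff ℝ ∞ u := by
    have h1 : ContDiff ℝ ∞ (fun w : ℂ => 1 - (ε⁻¹) ^ 2 * ‖w‖ ^ 2) :=
      contDiff_const.sub (contDiff_const.mul (contDiff_norm_sq ℝ))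
    exact (Real.smoothTransition.contDiff (n := ⊤)).comp h1
  have hsupp : tsupport u ⊆ closedBall 0 ε := by
    refine closure_minimal ?_ isClosed_closedBall
    intro w hw
    by_contra h
    rw [mem_closedBall, dist_zero_right, not_le] at h
    exact hw (prof_zero hε h)
  have huc : HasCompactSupport u :=
    HasCompactSupport.of_support_subset_isCompact (isCompact_closedBall 0 ε)
      (subset_closure.trans hsupp)
  have hpos : 0 < ∫ w, u w := by
    refine hus.continuous.integral_pos_of_hasCompactSupport_nonneg_nonzero huc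
      (fun w => Real.smoothTransition.nonneg _) (x := 0) ?_
    simp [hu, prof]
  refine ⟨fun r => (∫ w, u w)⁻¹ * prof ε r, fun w => (∫ w, u w)⁻¹ * u w, fun w => rfl,
    contDiff_const.mul hus, huc.mul_left, ?_, ?_, ?_⟩
  · refine (closure_mono ?_).trans hsupp
    intro w hw
    simp only [Function.mem_support, ne_eq, mul_eq_zero, not_or] at hw
    exact hw.2
  · rw [integral_const_mul, inv_mul_cancel₀ hpos.ne']
  · intro r hr
    simp [prof_zero hε hr]

/-- a sequence of bump functions -/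
noncomputable def bmp (n : ℕ) : ContDiffBump (0 : ℂ) where
  rIn := 1 / ((n : ℝ) + 1) / 2
  rOut := 1 / ((n : ℝ) + 1)
  rIn_pos := by positivity
  rIn_lt_rOut := half_lt_self (by positivity)

lemma bmp_tendsto : Tendsto (fun n => (bmp n).rOut) atTop (𝓝 0) :=
  tendsto_one_div_add_atTop_nhds_zero_nat

/-- the regularisation of a locally integrable function -/
noncomputable def reg (a : ℂ → ℂ) (z : ℂ) : ℂ :=
  limUnder atTop fun n => cv ((bmp n).normed volume) a z

lemma reg_ae {a : ℂ → ℂ} (ha : LocallyIntegrable a volume) : reg a =ᵐ[volume] a := by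
  have h := ContDiffBump.ae_convolution_tendsto_right_of_locallyIntegrable (μ := volume)
    (φ := bmp) (l := atTop) (K := 2) bmp_tendsto (Eventually.of_forall fun n => by
      show 1 / ((n : ℝ) + 1) ≤ 2 * (1 / ((n : ℝ) + 1) / 2); linarith) ha
  filter_upwards [h] with z hz
  refine Tendsto.limUnder_eq ?_
  simpa only [cv_eq] using hz

lemma bmp_tsupport (n : ℕ) :
    tsupport ((bmp n).normed volume) ⊆ closedBall 0 (bmp n).rOut := by
  rw [(bmp n).tsupport_normed_eq]

/-- near the points of `V` the regularisation is the convolution with a radial kernel -/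
lemma reg_eq {a : ℂ → ℂ} {V : Set ℂ} (ha : LocallyIntegrable a volume) (hw : WeakHol a V) {ε δ : ℝ}
    (hδ : 0 < δ) {R : ℝ → ℝ} {ρ : ℂ → ℝ} (hρR : ∀ w, ρ w = R ‖w‖)
    (hρ : ContDiff ℝ ∞ ρ) (hρc : HasCompactSupport ρ) (hint : ∫ w, ρ w = 1)
    (hR : ∀ r, ε < r → R r = 0) {z : ℂ} (hz : closedBall z (ε + δ) ⊆ V) :
    reg a z = cv ρ a z := by
  refine Tendsto.limUnder_eq ?_
  have hc : Continuous (cv ρ a) := cv_continuous hρ.continuous hρc ha
  have h1 : Tendsto (fun n => cv ((bmp n).normed volume) (cv ρ a) z) atTop (𝓝 (cv ρ a z)) := by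
    have := ContDiffBump.convolution_tendsto_right_of_continuous (μ := volume) bmp_tendsto hc z
    simpa only [cv_eq] using this
  refine h1.congr' ?_
  have h2 : ∀ᶠ n in atTop, (bmp n).rOut ≤ δ := by
    have := bmp_tendsto.eventually (Iic_mem_nhds hδ)
    exact this
  filter_upwards [h2] with n hn
  have hb : ContDiff ℝ ∞ ((bmp n).normed volume) := (bmp n).contDiff_normed
  have hbc : HasCompactSupport ((bmp n).normed volume) := (bmp n).hasCompactSupport_normed
  rw [cv_comm hb.continuous hbc hρ.continuous hρc ha]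
  refine cv_radial hρR hρ.continuous hρc hint (cv_continuous hb.continuous hbc ha) hR ?_
  intro w hw'
  refine (cv_differentiableAt hb hbc ha hw (ε := δ) ((bmp_tsupport n).trans
    (closedBall_subset_closedBall hn)) ?_).differentiableWithinAt
  refine (closedBall_subset_closedBall' ?_).trans hz
  rw [mem_closedBall] at hw'
  linarith

/-- **Weyl's lemma** -/
theorem weyl {a : ℂ → ℂ} {V : Set ℂ} (ha : LocallyIntegrable a volume) (hV : IsOpen V)
    (hw : WeakHol a V) : DifferentiableOn ℂ (reg a) V := by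
  intro z hz
  refine DifferentiableAt.differentiableWithinAt ?_
  obtain ⟨r, hr, hrV⟩ := Metric.isOpen_iff.1 hV z hz
  obtain ⟨R, ρ, hρR, hρ, hρc, hρs, hint, hR⟩ := exists_radial (ε := r / 4) (by positivity)
  have h1 : ∀ w ∈ ball z (r / 4), reg a w = cv ρ a w := by
    intro w hw'
    refine reg_eq ha hw (ε := r / 4) (δ := r / 4) (by positivity) hρR hρ hρc hint hR
      ?_
    intro y hy
    refine hrV ?_
    rw [mem_closedBall] at hy
    rw [mem_ball] at hw' ⊢
    have := dist_triangle y w z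
    linarith
  have h2 : reg a =ᶠ[𝓝 z] cv ρ a := by
    filter_upwards [ball_mem_nhds z (show 0 < r / 4 by positivity)] with w hw' using h1 w hw'
  refine DifferentiableAt.congr_of_eventuallyEq ?_ h2
  refine cv_differentiableAt hρ hρc ha hw hρs ?_
  intro y hy
  refine hrV ?_
  rw [mem_closedBall] at hy
  rw [mem_ball]
  linarith

end Pool.Agent.Helper23.Flat
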