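import Pool.Agent.Helper76.Flat.Form
import Pool.Agent.Helper23.Flat.Weyl

set_option autoImplicit false
set_option linter.unusedSectionVars false

/-!
A conformal measure on a Riemann surface with a countable atlas, and change of variables.
-/

open Set Topology MeasureTheory Filter Metric Complex
open scoped ContDiff ENNReal
open Pool.Agent.Helper76.Flat

namespace Pool.Agent.Helper23.Flat

variable {S : Type*} [TopologicalSpace S]

section trans

variable {X : RiemannSurfaceStructure S} {φ ψ χ : OpenPartialHomeomorph S ℂ}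

lemma trans_diff (hφ : φ ∈ X.charts) (hψ : ψ ∈ X.charts) {x : S} (hx : x ∈ φ.source)
    (hx' : x ∈ ψ.source) : DifferentiableAt ℂ (ψ ∘ φ.symm) (φ x) := by
  have h := X.holomorphic φ hφ ψ hψ
  have ho : IsOpen (φ.target ∩ φ.symm ⁻¹' ψ.source) := φ.isOpen_inter_preimage_symm ψ.open_source
  refine h.differentiableAt (ho.mem_nhds ⟨φ.map_source hx, ?_⟩)
  rw [mem_preimage, φ.left_inv hx]
  exact hx'

lemma symm_eventually {x : S} (hx : x ∈ φ.source) {U : Set S} (hU : IsOpen U) (hxU : x ∈ U) :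
    ∀ᶠ z in 𝓝 (φ x), z ∈ φ.target ∧ φ.symm z ∈ U := by
  have ho : IsOpen (φ.target ∩ φ.symm ⁻¹' U) := φ.isOpen_inter_preimage_symm hU
  filter_upwards [ho.mem_nhds ⟨φ.map_source hx, by rwa [mem_preimage, φ.left_inv hx]⟩] with z hz
  exact hz

lemma trans_chain (hφ : φ ∈ X.charts) (hψ : ψ ∈ X.charts) (hχ : χ ∈ X.charts) {x : S}
    (h1 : x ∈ φ.source) (h2 : x ∈ ψ.source) (h3 : x ∈ χ.source) :
    deriv (χ ∘ φ.symm) (φ x) = deriv (χ ∘ ψ.symm) (ψ x) * deriv (ψ ∘ φ.symm) (φ x) := by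
  have e : χ ∘ φ.symm =ᶠ[𝓝 (φ x)] (χ ∘ ψ.symm) ∘ (ψ ∘ φ.symm) := by
    filter_upwards [symm_eventually h1 ψ.open_source h2] with z hz
    simp only [Function.comp_apply]
    rw [ψ.left_inv hz.2]
  rw [e.deriv_eq]
  have e2 : (ψ ∘ φ.symm) (φ x) = ψ x := by rw [Function.comp_apply, φ.left_inv h1]
  have d1 : DifferentiableAt ℂ (χ ∘ ψ.symm) ((ψ ∘ φ.symm) (φ x)) := by
    rw [e2]; exact trans_diff hψ hχ h2 h3
  rw [deriv_comp _ d1 (trans_diff hφ hψ h1 h2), e2]

lemma trans_self {x : S} (h1 : x ∈ φ.source) : deriv (φ ∘ φ.symm) (φ x) = 1 := by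
  have e : φ ∘ φ.symm =ᶠ[𝓝 (φ x)] id := by
    filter_upwards [φ.open_target.mem_nhds (φ.map_source h1)] with z hz
    simp only [Function.comp_apply, id_eq]
    rw [φ.right_inv hz]
  rw [e.deriv_eq, deriv_id]

lemma trans_ne (hφ : φ ∈ X.charts) (hψ : ψ ∈ X.charts) {x : S}
    (h1 : x ∈ φ.source) (h2 : x ∈ ψ.source) : deriv (ψ ∘ φ.symm) (φ x) ≠ 0 := by
  intro h
  have := trans_chain hφ hψ hφ h1 h2 h1
  rw [trans_self h1, h, mul_zero] at this
  exact one_ne_zero this

end trans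

/-- a countable atlas -/
structure Frame (X : RiemannSurfaceStructure S) where
  Φ : ℕ → OpenPartialHomeomorph S ℂ
  mem : ∀ n, Φ n ∈ X.charts
  cov : ∀ x, ∃ n, x ∈ (Φ n).source

lemma exists_frame [SecondCountableTopology S] [Nonempty S] (X : RiemannSurfaceStructure S) :
    Nonempty (Frame X) := by
  obtain ⟨T, hTc, hT⟩ := TopologicalSpace.isOpen_iUnion_countable
    (fun φ : X.charts => (φ : OpenPartialHomeomorph S ℂ).source) (fun φ => φ.1.open_source)
  have hcov : ∀ x : S, ∃ φ ∈ T, x ∈ (φ : OpenPartialHomeomorph S ℂ).source := by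
    intro x
    have h1 : x ∈ ⋃ φ ∈ X.charts, φ.source := by rw [X.cover]; trivial
    simp only [mem_iUnion, exists_prop] at h1
    obtain ⟨φ, hφ, hx⟩ := h1
    have h2 : x ∈ ⋃ φ : X.charts, (φ : OpenPartialHomeomorph S ℂ).source :=
      mem_iUnion.2 ⟨⟨φ, hφ⟩, hx⟩
    rw [← hT] at h2
    simp only [mem_iUnion, exists_prop] at h2
    exact h2
  have hne : T.Nonempty := by
    obtain ⟨x⟩ := ‹Nonempty S›
    obtain ⟨φ, hφ, -⟩ := hcov x
    exact ⟨φ, hφ⟩
  obtain ⟨g, hg⟩ := hTc.exists_eq_range hne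
  refine ⟨⟨fun n => g n, fun n => (g n).2, fun x => ?_⟩⟩
  obtain ⟨φ, hφ, hx⟩ := hcov x
  rw [hg] at hφ
  obtain ⟨n, rfl⟩ := hφ
  exact ⟨n, hx⟩

namespace Frame

variable {X : RiemannSurfaceStructure S} (F : Frame X)

open Classical in
/-- the index of the first chart containing the point -/
noncomputable def idx (x : S) : ℕ := Nat.find (F.cov x)

lemma idx_spec (x : S) : x ∈ (F.Φ (F.idx x)).source := by
  classical
  unfold idx
  convert Nat.find_spec (F.cov x)

/-- the pieces -/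
def P (n : ℕ) : Set S := {x | F.idx x = n}

lemma P_subset (n : ℕ) : F.P n ⊆ (F.Φ n).source := by
  rintro x rfl
  exact F.idx_spec x

lemma P_eq (n : ℕ) : F.P n = (F.Φ n).source \ ⋃ m < n, (F.Φ m).source := by
  classical
  ext x
  have : F.idx x = n ↔ x ∈ (F.Φ n).source ∧ ∀ m < n, x ∉ (F.Φ m).source := by
    unfold idx
    convert Nat.find_eq_iff (F.cov x)
  simp only [P, mem_ofPred_eq, this, Set.mem_sdiff, mem_iUnion, exists_prop, not_exists, not_and]

lemma P_disj : Pairwise (Function.onFun Disjoint F.P) := by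
  intro i j hij
  rw [Function.onFun, Set.disjoint_left]
  rintro x hx hy
  exact hij (by rw [← show F.idx x = i from hx, ← show F.idx x = j from hy])

lemma iUnion_P : ⋃ n, F.P n = univ := by
  ext x
  simp [P]

/-- the derivative of the change of frame -/
noncomputable def J (φ : OpenPartialHomeomorph S ℂ) (x : S) : ℂ :=
  deriv (F.Φ (F.idx x) ∘ φ.symm) (φ x)

lemma J_ne {φ : OpenPartialHomeomorph S ℂ} (hφ : φ ∈ X.charts) {x : S} (hx : x ∈ φ.source) :
    F.J φ x ≠ 0 :=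
  trans_ne hφ (F.mem _) hx (F.idx_spec x)

lemma J_trans {φ ψ : OpenPartialHomeomorph S ℂ} (hφ : φ ∈ X.charts) (hψ : ψ ∈ X.charts) {x : S}
    (h1 : x ∈ φ.source) (h2 : x ∈ ψ.source) :
    F.J φ x = F.J ψ x * deriv (ψ ∘ φ.symm) (φ x) :=
  trans_chain hφ hψ (F.mem _) h1 h2 (F.idx_spec x)

lemma J_self {x : S} : F.J (F.Φ (F.idx x)) x = 1 := trans_self (F.idx_spec x)

/-- the density -/
noncomputable def dens (φ : OpenPartialHomeomorph S ℂ) (z : ℂ) : ℝ≥0∞ :=
  ‖F.J φ (φ.symm z)‖ₑ ^ 2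

variable [MeasurableSpace S] [BorelSpace S]

lemma measurableSet_P (n : ℕ) : MeasurableSet (F.P n) := by
  rw [P_eq]
  refine (F.Φ n).open_source.measurableSet.diff ?_
  exact MeasurableSet.iUnion fun m => MeasurableSet.iUnion fun _ => (F.Φ m).open_source.measurableSet

/-- the measure -/
noncomputable def μ : Measure S :=
  Measure.sum fun n => (volume.restrict (F.Φ n '' F.P n)).map (F.Φ n).symm

end Frame

lemma measurableSet_image {φ : OpenPartialHomeomorph S ℂ} [MeasurableSpace S] [BorelSpace S]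
    {A : Set S} (hA : MeasurableSet A) (hAs : A ⊆ φ.source) : MeasurableSet (φ '' A) := by
  have h1 : Continuous (fun x : φ.target => φ.symm x) :=
    continuousOn_iff_continuous_domRestrict.1 φ.symm.continuousOn
  have h2 : MeasurableSet ((fun x : φ.target => φ.symm x) ⁻¹' A) := h1.measurable hA
  have h3 := MeasurableSet.subtype_image φ.open_target.measurableSet h2
  convert h3 using 1
  ext y
  simp only [mem_image, mem_preimage, Subtype.exists, exists_and_right, exists_eq_right]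
  constructor
  · rintro ⟨x, hx, rfl⟩
    exact ⟨φ.map_source (hAs hx), by rwa [φ.left_inv (hAs hx)]⟩
  · rintro ⟨hy, hx⟩
    exact ⟨_, hx, φ.right_inv hy⟩

lemma aemeasurable_symm {φ : OpenPartialHomeomorph S ℂ} [MeasurableSpace S] [BorelSpace S]
    {A : Set S} (hAs : A ⊆ φ.source) (ν : Measure ℂ) :
    AEMeasurable φ.symm (ν.restrict (φ '' A)) := by
  refine AEMeasurable.mono_set (t := φ.target) ?_ ?_
  · rintro _ ⟨x, hx, rfl⟩
    exact φ.map_source (hAs hx)
  · exact φ.symm.continuousOn.aemeasurable φ.open_target.measurableSet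

lemma symm_preimage_inter {φ : OpenPartialHomeomorph S ℂ} {A B : Set S} (hB : B ⊆ φ.source) :
    φ.symm ⁻¹' A ∩ φ '' B = φ '' (A ∩ B) := by
  ext z
  simp only [mem_inter_iff, mem_preimage, mem_image]
  constructor
  · rintro ⟨h1, x, hx, rfl⟩
    rw [φ.left_inv (hB hx)] at h1
    exact ⟨x, ⟨h1, hx⟩, rfl⟩
  · rintro ⟨x, ⟨hx1, hx2⟩, rfl⟩
    exact ⟨by rwa [φ.left_inv (hB hx2)], x, hx2, rfl⟩

lemma det_mul (c : ℂ) :
    (((1 : ℂ →L[ℂ] ℂ).smulRight c).restrictScalars ℝ : ℂ →L[ℝ] ℂ).det = ‖c‖ ^ 2 := by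
  simp [ContinuousLinearMap.det, LinearMap.det_restrictScalars,
      Algebra.norm_complex_eq, Complex.normSq_eq_norm_sq]

lemma enorm_det (c : ℂ) :
    ENNReal.ofReal |(((1 : ℂ →L[ℂ] ℂ).smulRight c).restrictScalars ℝ : ℂ →L[ℝ] ℂ).det| =
      ‖c‖ₑ ^ 2 := by
  rw [det_mul, abs_of_nonneg (by positivity), ENNReal.ofReal_pow (norm_nonneg _),
    ofReal_norm]

/-- change of variables for an injective holomorphic map -/
lemma volume_image_holo {h : ℂ → ℂ} {A : Set ℂ} (hA : MeasurableSet A)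
    (hd : ∀ z ∈ A, DifferentiableAt ℂ h z) (hinj : InjOn h A) :
    volume (h '' A) = ∫⁻ z in A, ‖deriv h z‖ₑ ^ 2 := by
  rw [← lintegral_abs_det_fderiv_eq_addHaar_image volume hA
    (f' := fun z => (((1 : ℂ →L[ℂ] ℂ).smulRight (deriv h z)).restrictScalars ℝ : ℂ →L[ℝ] ℂ)) ?_ hinj]
  · simp_rw [enorm_det]
  · intro z hz
    exact ((hd z hz).hasDerivAt.hasFDerivAt.restrictScalars ℝ).hasFDerivWithinAt

namespace Frame

variable {X : RiemannSurfaceStructure S} (F : Frame X) [MeasurableSpace S] [BorelSpace S]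

lemma μ_apply {W : Set S} (hW : MeasurableSet W) :
    F.μ W = ∑' n, volume (F.Φ n '' (W ∩ F.P n)) := by
  rw [μ, Measure.sum_apply _ hW]
  congr 1
  ext n
  rw [Measure.map_apply_of_aemeasurable (aemeasurable_symm (F.P_subset n) volume) hW,
    Measure.restrict_apply' (measurableSet_image (F.measurableSet_P n) (F.P_subset n)),
    symm_preimage_inter (F.P_subset n)]

lemma image_eq_iUnion (φ : OpenPartialHomeomorph S ℂ) (W : Set S) :
    φ '' W = ⋃ n, φ '' (W ∩ F.P n) := by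
  rw [← image_iUnion, ← inter_iUnion, F.iUnion_P, inter_univ]

lemma image_disjoint {φ : OpenPartialHomeomorph S ℂ} {W : Set S} (hW : W ⊆ φ.source) :
    Pairwise (Function.onFun Disjoint fun n => φ '' (W ∩ F.P n)) := by
  intro i j hij
  rw [Function.onFun, Set.disjoint_left]
  rintro _ ⟨x, hx, rfl⟩ ⟨y, hy, hxy⟩
  have : y = x := φ.injOn (hW hy.1) (hW hx.1) hxy
  subst this
  exact Set.disjoint_left.1 (F.P_disj hij) hx.2 hy.2

lemma dens_eq {φ : OpenPartialHomeomorph S ℂ} {n : ℕ} {z : ℂ}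
    (hz : z ∈ φ '' (φ.source ∩ F.P n)) :
    F.dens φ z = ‖deriv (F.Φ n ∘ φ.symm) z‖ₑ ^ 2 := by
  obtain ⟨x, ⟨hx1, hx2⟩, rfl⟩ := hz
  rw [dens, J, φ.left_inv hx1, show F.idx x = n from hx2]

lemma μ_eq {φ : OpenPartialHomeomorph S ℂ} (hφ : φ ∈ X.charts) {W : Set S}
    (hW : MeasurableSet W) (hWs : W ⊆ φ.source) :
    F.μ W = ∫⁻ z in φ '' W, F.dens φ z := by
  have hm : ∀ n, MeasurableSet (φ '' (W ∩ F.P n)) := fun n =>
    measurableSet_image (hW.inter (F.measurableSet_P n)) (inter_subset_left.trans hWs)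
  rw [F.image_eq_iUnion φ W, lintegral_iUnion hm (F.image_disjoint hWs), μ_apply F hW]
  congr 1
  ext n
  have h1 : F.Φ n '' (W ∩ F.P n) = (F.Φ n ∘ φ.symm) '' (φ '' (W ∩ F.P n)) := by
    rw [← image_comp]
    refine image_congr fun x hx => ?_
    simp only [Function.comp_apply]
    rw [φ.left_inv (hWs hx.1)]
  have h2 : InjOn (F.Φ n ∘ φ.symm) (φ '' (W ∩ F.P n)) := by
    rintro _ ⟨x, hx, rfl⟩ _ ⟨y, hy, rfl⟩ hxy
    simp only [Function.comp_apply] at hxy
    rw [φ.left_inv (hWs hx.1), φ.left_inv (hWs hy.1)] at hxy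
    rw [(F.Φ n).injOn (F.P_subset n hx.2) (F.P_subset n hy.2) hxy]
  have h3 : ∀ z ∈ φ '' (W ∩ F.P n), DifferentiableAt ℂ (F.Φ n ∘ φ.symm) z := by
    rintro _ ⟨x, hx, rfl⟩
    exact trans_diff hφ (F.mem n) (hWs hx.1) (F.P_subset n hx.2)
  rw [h1, volume_image_holo (hm n) h3 h2]
  refine setLIntegral_congr_fun (hm n) fun z hz => ?_
  obtain ⟨x, hx, rfl⟩ := hz
  exact (F.dens_eq ⟨x, ⟨hWs hx.1, hx.2⟩, rfl⟩).symm

lemma aemeasurable_J {φ : OpenPartialHomeomorph S ℂ} {W : Set S} (hWs : W ⊆ φ.source) :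
    AEMeasurable (fun z => F.J φ (φ.symm z)) (volume.restrict (φ '' W)) := by
  rw [F.image_eq_iUnion φ W, aemeasurable_iUnion_iff]
  intro n
  refine AEMeasurable.mono_set (t := φ '' (φ.source ∩ F.P n))
    (image_mono (inter_subset_inter_left _ hWs)) ?_
  have h1 : AEMeasurable (deriv (F.Φ n ∘ φ.symm)) (volume.restrict (φ '' (φ.source ∩ F.P n))) :=
    (measurable_deriv _).aemeasurable
  refine h1.congr ?_
  have hm : MeasurableSet (φ '' (φ.source ∩ F.P n)) :=
    measurableSet_image (φ.open_source.measurableSet.inter (F.measurableSet_P n)) inter_subset_left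
  rw [Filter.EventuallyEq, ae_restrict_iff' hm]
  refine Eventually.of_forall fun z hz => ?_
  obtain ⟨x, ⟨hx1, hx2⟩, rfl⟩ := hz
  rw [J, φ.left_inv hx1, show F.idx x = n from hx2]

lemma aemeasurable_dens {φ : OpenPartialHomeomorph S ℂ} {W : Set S} (hWs : W ⊆ φ.source) :
    AEMeasurable (F.dens φ) (volume.restrict (φ '' W)) :=
  ((F.aemeasurable_J hWs).enorm).pow_const 2

lemma μ_restrict {φ : OpenPartialHomeomorph S ℂ} (hφ : φ ∈ X.charts) {W : Set S}
    (hW : MeasurableSet W) (hWs : W ⊆ φ.source) :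
    F.μ.restrict W = ((volume.restrict (φ '' W)).withDensity (F.dens φ)).map φ.symm := by
  have hmW := measurableSet_image hW hWs
  rw [← restrict_withDensity hmW]
  ext A hA
  rw [Measure.restrict_apply hA, F.μ_eq hφ (hA.inter hW) (inter_subset_right.trans hWs),
    Measure.map_apply_of_aemeasurable (aemeasurable_symm hWs _) hA,
    Measure.restrict_apply' hmW, symm_preimage_inter hWs,
    withDensity_apply _ (measurableSet_image (hA.inter hW) (inter_subset_right.trans hWs))]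

lemma aemeasurable_symm_dens {φ : OpenPartialHomeomorph S ℂ} {W : Set S}
    (hWs : W ⊆ φ.source) :
    AEMeasurable φ.symm ((volume.restrict (φ '' W)).withDensity (F.dens φ)) :=
  (aemeasurable_symm hWs volume).mono_ac (withDensity_absolutelyContinuous _ _)

lemma lintegral_eq {φ : OpenPartialHomeomorph S ℂ} (hφ : φ ∈ X.charts) {W : Set S}
    (hW : MeasurableSet W) (hWs : W ⊆ φ.source) {g : S → ℝ≥0∞}
    (hg : AEMeasurable g (F.μ.restrict W)) :
    ∫⁻ x in W, g x ∂F.μ = ∫⁻ z in φ '' W, F.dens φ z * g (φ.symm z) := by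
  rw [F.μ_restrict hφ hW hWs] at hg ⊢
  rw [lintegral_map' hg (F.aemeasurable_symm_dens hWs)]
  exact lintegral_withDensity_eq_lintegral_mul₀' (F.aemeasurable_dens hWs)
    (hg.comp_aemeasurable (F.aemeasurable_symm_dens hWs))

lemma integral_eq {φ : OpenPartialHomeomorph S ℂ} (hφ : φ ∈ X.charts) {W : Set S}
    (hW : MeasurableSet W) (hWs : W ⊆ φ.source) {g : S → ℂ}
    (hg : AEStronglyMeasurable g (F.μ.restrict W)) :
    ∫ x in W, g x ∂F.μ = ∫ z in φ '' W, (‖F.J φ (φ.symm z)‖ ^ 2 : ℝ) • g (φ.symm z) := by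
  rw [F.μ_restrict hφ hW hWs] at hg ⊢
  rw [integral_map (F.aemeasurable_symm_dens hWs) hg]
  rw [integral_withDensity_eq_integral_toReal_smul₀ (F.aemeasurable_dens hWs)]
  · refine integral_congr_ae (Eventually.of_forall fun z => ?_)
    simp only [dens, ENNReal.toReal_pow, toReal_enorm]
  · refine Eventually.of_forall fun z => ?_
    simp only [dens]
    exact ENNReal.pow_lt_top enorm_lt_top

end Frame

end Pool.Agent.Helper23.Flat
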