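import Pool.Agent.Helper23.Flat.Exists

set_option autoImplicit false
set_option linter.unusedSectionVars false

/-!
Passing to the maximal atlas; the existence theorem.
-/

open Set Topology MeasureTheory Filter Metric Complex
open Pool.Agent.Helper76.Flat

namespace Pool.Agent.Helper23.Flat

variable {S : Type*} [TopologicalSpace S]

/-- compatibility of charts -/
def Compat (φ ψ : OpenPartialHomeomorph S ℂ) : Prop :=
  ∀ z ∈ φ.target, φ.symm z ∈ ψ.source → DifferentiableAt ℂ (ψ ∘ φ.symm) z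

lemma compat_of_mem {X : RiemannSurfaceStructure S} {φ ψ : OpenPartialHomeomorph S ℂ}
    (hφ : φ ∈ X.charts) (hψ : ψ ∈ X.charts) : Compat φ ψ := by
  intro z hz hz'
  have := trans_diff hφ hψ (φ.map_target hz) hz'
  rwa [φ.right_inv hz] at this

lemma compat_trans {X : RiemannSurfaceStructure S} {φ ψ : OpenPartialHomeomorph S ℂ}
    (h1 : ∀ χ ∈ X.charts, Compat φ χ) (h2 : ∀ χ ∈ X.charts, Compat χ ψ) : Compat φ ψ := by
  intro z hz hz'
  have h3 : φ.symm z ∈ ⋃ χ ∈ X.charts, χ.source := by rw [X.cover]; trivial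
  simp only [mem_iUnion, exists_prop] at h3
  obtain ⟨χ, hχ, hx⟩ := h3
  have e : ψ ∘ φ.symm =ᶠ[𝓝 z] (ψ ∘ χ.symm) ∘ (χ ∘ φ.symm) := by
    have ho : IsOpen (φ.target ∩ φ.symm ⁻¹' χ.source) :=
      φ.isOpen_inter_preimage_symm χ.open_source
    filter_upwards [ho.mem_nhds ⟨hz, hx⟩] with w hw
    simp only [Function.comp_apply]
    rw [χ.left_inv hw.2]
  refine DifferentiableAt.congr_of_eventuallyEq ?_ e
  refine DifferentiableAt.comp z ?_ (h1 χ hχ z hz hx)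
  refine h2 χ hχ _ (χ.map_source hx) ?_
  simp only [Function.comp_apply]
  rwa [χ.left_inv hx]

/-- the maximal atlas -/
def maxAtlas (X : RiemannSurfaceStructure S) : RiemannSurfaceStructure S where
  charts := {φ | ∀ ψ ∈ X.charts, Compat φ ψ ∧ Compat ψ φ}
  cover := by
    rw [← univ_subset_iff, ← X.cover]
    refine iUnion₂_subset fun φ hφ => ?_
    intro x hx
    refine mem_iUnion₂.2 ⟨φ, fun ψ hψ => ⟨compat_of_mem hφ hψ, compat_of_mem hψ hφ⟩, hx⟩
  holomorphic φ hφ ψ hψ := by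
    intro z hz
    exact (compat_trans (fun χ hχ => (hφ χ hχ).1) (fun χ hχ => (hψ χ hχ).2) z hz.1
      hz.2).differentiableWithinAt

lemma mem_maxAtlas {X : RiemannSurfaceStructure S} {φ : OpenPartialHomeomorph S ℂ}
    (hφ : φ ∈ X.charts) : φ ∈ (maxAtlas X).charts :=
  fun _ hψ => ⟨compat_of_mem hφ hψ, compat_of_mem hψ hφ⟩

lemma holo_comp {X : RiemannSurfaceStructure S} {f : S → S} (hf : X.IsHolomorphic f)
    {φ ψ : OpenPartialHomeomorph S ℂ} (hφ : φ ∈ (maxAtlas X).charts)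
    (hψ : ψ ∈ (maxAtlas X).charts) {z : ℂ} (hz : z ∈ φ.target) (hz' : f (φ.symm z) ∈ ψ.source) :
    DifferentiableAt ℂ (ψ ∘ f ∘ φ.symm) z := by
  have h3 : φ.symm z ∈ ⋃ χ ∈ X.charts, χ.source := by rw [X.cover]; trivial
  simp only [mem_iUnion, exists_prop] at h3
  obtain ⟨χ, hχ, hx⟩ := h3
  have h4 : f (φ.symm z) ∈ ⋃ χ ∈ X.charts, χ.source := by rw [X.cover]; trivial
  simp only [mem_iUnion, exists_prop] at h4
  obtain ⟨χ', hχ', hx'⟩ := h4
  have hcont : ContinuousAt (f ∘ φ.symm) z :=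
    hf.1.continuousAt.comp (φ.continuousAt_symm hz)
  have e : ψ ∘ f ∘ φ.symm =ᶠ[𝓝 z] (ψ ∘ χ'.symm) ∘ (χ' ∘ f ∘ χ.symm) ∘ (χ ∘ φ.symm) := by
    have ho : IsOpen (φ.target ∩ φ.symm ⁻¹' χ.source) :=
      φ.isOpen_inter_preimage_symm χ.open_source
    have h5 : ∀ᶠ w in 𝓝 z, (f ∘ φ.symm) w ∈ χ'.source :=
      hcont.eventually (χ'.open_source.mem_nhds hx')
    filter_upwards [ho.mem_nhds ⟨hz, hx⟩, h5] with w hw hw'
    simp only [Function.comp_apply] at hw' ⊢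
    rw [χ.left_inv hw.2, χ'.left_inv hw']
  refine DifferentiableAt.congr_of_eventuallyEq ?_ e
  have e1 : (χ ∘ φ.symm) z = χ (φ.symm z) := rfl
  have d1 : DifferentiableAt ℂ (χ ∘ φ.symm) z := (hφ χ hχ).1 z hz hx
  have d2 : DifferentiableAt ℂ (χ' ∘ f ∘ χ.symm) ((χ ∘ φ.symm) z) := by
    rw [e1]
    have ho : IsOpen (χ.target ∩ χ.symm ⁻¹' (f ⁻¹' χ'.source)) :=
      χ.isOpen_inter_preimage_symm (χ'.open_source.preimage hf.1)
    refine (hf.2 χ hχ χ' hχ').differentiableAt (ho.mem_nhds ⟨χ.map_source hx, ?_⟩)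
    rw [mem_preimage, mem_preimage, χ.left_inv hx]
    exact hx'
  have e2 : (χ' ∘ f ∘ χ.symm) ((χ ∘ φ.symm) z) = χ' (f (φ.symm z)) := by
    simp only [Function.comp_apply]
    rw [χ.left_inv hx]
  have d3 : DifferentiableAt ℂ (ψ ∘ χ'.symm) ((χ' ∘ f ∘ χ.symm) ((χ ∘ φ.symm) z)) := by
    rw [e2]
    refine (hψ χ' hχ').2 _ (χ'.map_source hx') ?_
    rwa [χ'.left_inv hx']
  exact d3.comp z (d2.comp z d1)

lemma tr_mem {X : RiemannSurfaceStructure S} {G : Type*} [Group G] {ρ : G →* (S ≃ₜ S)}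
    (hρ : ∀ g, X.IsHolomorphic (ρ g)) (g : G) {φ : OpenPartialHomeomorph S ℂ}
    (hφ : φ ∈ (maxAtlas X).charts) : tr ρ g φ ∈ (maxAtlas X).charts := by
  intro ψ hψ
  have hψ' := mem_maxAtlas hψ
  have hsymm : ∀ x, (ρ g).symm x = ρ g⁻¹ x := by
    intro x
    rw [map_inv]
    rfl
  constructor
  · intro z hz hz'
    exact holo_comp (hρ g) hφ hψ' hz hz'
  · intro z hz hz'
    rw [mem_tr_source, hsymm] at hz'
    have := holo_comp (hρ g⁻¹) hψ' hφ hz hz'
    have e : tr ρ g φ ∘ ψ.symm = φ ∘ ρ g⁻¹ ∘ ψ.symm := by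
      ext w
      simp only [Function.comp_apply, tr_apply, hsymm]
    rw [e]
    exact this

/-- restriction of a form to a smaller atlas -/
def restrictAtlas {X : RiemannSurfaceStructure S} {U : Set S} (ω : HoloForm (maxAtlas X) U) :
    HoloForm X U where
  coeff := ω.coeff
  holo φ hφ := ω.holo φ (mem_maxAtlas hφ)
  trans φ hφ ψ hψ := ω.trans φ (mem_maxAtlas hφ) ψ (mem_maxAtlas hψ)

/-- **The `L²` harmonic projection**: existence of an invariant square integrable holomorphic form,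
not identically zero, on the complement of the translates of a closed disc. -/
theorem exists_holoForm [T2Space S] [SecondCountableTopology S] [MeasurableSpace S] [BorelSpace S]
    (X : RiemannSurfaceStructure S) {G : Type*} [Group G] [Finite G] (ρ : G →* (S ≃ₜ S))
    (hρ : ∀ g, X.IsHolomorphic (ρ g)) {κ : OpenPartialHomeomorph S ℂ} (hκ : κ ∈ X.charts)
    (c : ℂ) {r R : ℝ} (hr : 0 < r) (hrR : r < R) (hR : closedBall c R ⊆ κ.target)
    (hdisj : ∀ g : G, g ≠ 1 →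
      Disjoint (ρ g '' (κ.symm '' closedBall c R)) (κ.symm '' closedBall c R)) :
    ∃ ω : HoloForm X (⋃ g, ρ g '' (κ.symm '' closedBall c r))ᶜ,
      (∀ g, ω.Invariant (ρ g)) ∧ ω.IsL2 ∧
      ∃ x ∈ (⋃ g, ρ g '' (κ.symm '' closedBall c r))ᶜ, ∃ φ ∈ X.charts, x ∈ φ.source ∧
        ω.coeff φ (φ x) ≠ 0 := by
  obtain ⟨ω, h1, ⟨μ, h2, h2'⟩, x, hx, hxκ, h3⟩ := exists_holoForm_aux (maxAtlas X) ρ
    (fun g φ hφ => tr_mem hρ g hφ) (mem_maxAtlas hκ) c hr hrR hR hdisj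
  refine ⟨restrictAtlas ω, ?_, ?_, x, hx, κ, hκ, hxκ, h3⟩
  · intro g φ hφ ψ hψ
    exact h1 g φ (mem_maxAtlas hφ) ψ (mem_maxAtlas hψ)
  · exact ⟨μ, fun φ hφ => h2 φ (mem_maxAtlas hφ), h2'⟩

end Pool.Agent.Helper23.Flat
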