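import Pool.Agent.Helper23.Flat.Surf
import Pool.Agent.Helper23.Flat.Stokes

set_option autoImplicit false
set_option linter.unusedSectionVars false

/-!
Exact test forms on a Riemann surface and their pairings.
-/

open Set Topology MeasureTheory Filter Metric Complex
open scoped ContDiff ComplexConjugate
open Pool.Agent.Helper76.Flat

namespace Pool.Agent.Helper23.Flat

variable {S : Type*} [TopologicalSpace S]

/-- test function in a chart -/
structure IsTest (φ : OpenPartialHomeomorph S ℂ) (v : ℂ → ℝ) : Prop where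
  smooth : ContDiff ℝ ∞ v
  compact : HasCompactSupport v
  supp : tsupport v ⊆ φ.target

lemma memLp_two_iff {α : Type*} {m : MeasurableSpace α} {μ : Measure α} {f : α → ℂ}
    (hf : AEStronglyMeasurable f μ) : MemLp f 2 μ ↔ ∫⁻ a, ‖f a‖ₑ ^ 2 ∂μ < ⊤ := by
  have h := eLpNorm_lt_top_iff_lintegral_rpow_enorm_lt_top (f := f) (μ := μ) (p := 2)
    (by norm_num) (by norm_num)
  rw [MemLp]
  constructor
  · rintro ⟨-, h2⟩
    simpa using h.1 h2
  · intro h2
    exact ⟨hf, h.2 (by simpa using h2)⟩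

open Classical in
/-- a test function read in another chart -/
noncomputable def pull (φ ψ : OpenPartialHomeomorph S ℂ) (w : ℂ → ℝ) (z : ℂ) : ℝ :=
  if φ.symm z ∈ ψ.source then w (ψ (φ.symm z)) else 0

lemma pull_zero_near [T2Space S] {φ ψ : OpenPartialHomeomorph S ℂ} {w : ℂ → ℝ}
    (hw : IsTest ψ w) {z : ℂ} (hz : z ∈ φ.target) (hz' : φ.symm z ∉ ψ.source) :
    pull φ ψ w =ᶠ[𝓝 z] fun _ => 0 := by
  have hK : IsClosed (ψ.symm '' tsupport w) :=
    (hw.compact.isCompact.image_of_continuousOn (ψ.symm.continuousOn.mono hw.supp)).isClosed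
  have hzK : φ.symm z ∈ (ψ.symm '' tsupport w)ᶜ := by
    rintro ⟨y, hy, hyz⟩
    apply hz'
    rw [← hyz]
    exact ψ.map_target (hw.supp hy)
  have ho : IsOpen (φ.target ∩ φ.symm ⁻¹' (ψ.symm '' tsupport w)ᶜ) :=
    φ.isOpen_inter_preimage_symm hK.isOpen_compl
  filter_upwards [ho.mem_nhds ⟨hz, hzK⟩] with y hy
  rw [pull]
  split_ifs with h
  · by_contra h2
    apply hy.2
    refine ⟨ψ (φ.symm y), subset_closure h2, ψ.left_inv h⟩
  · rfl

lemma pull_eq_near {φ ψ : OpenPartialHomeomorph S ℂ} {w : ℂ → ℝ} {z : ℂ} (hz : z ∈ φ.target)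
    (hz' : φ.symm z ∈ ψ.source) :
    pull φ ψ w =ᶠ[𝓝 z] fun y => w ((ψ ∘ φ.symm) y) := by
  have ho : IsOpen (φ.target ∩ φ.symm ⁻¹' ψ.source) := φ.isOpen_inter_preimage_symm ψ.open_source
  filter_upwards [ho.mem_nhds ⟨hz, hz'⟩] with y hy
  rw [pull, if_pos (show φ.symm y ∈ ψ.source from hy.2)]
  rfl

lemma pull_smooth [T2Space S] {X : RiemannSurfaceStructure S} {φ ψ : OpenPartialHomeomorph S ℂ}
    (hφ : φ ∈ X.charts) (hψ : ψ ∈ X.charts) {w : ℂ → ℝ} (hw : IsTest ψ w) :
    ContDiffOn ℝ ∞ (pull φ ψ w) φ.target := by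
  intro z hz
  refine ContDiffAt.contDiffWithinAt ?_
  by_cases hz' : φ.symm z ∈ ψ.source
  · refine ContDiffAt.congr_of_eventuallyEq ?_ (pull_eq_near hz hz')
    have ho : IsOpen (φ.target ∩ φ.symm ⁻¹' ψ.source) :=
      φ.isOpen_inter_preimage_symm ψ.open_source
    have h1 : ContDiffOn ℂ ∞ (ψ ∘ φ.symm) (φ.target ∩ φ.symm ⁻¹' ψ.source) :=
      (X.holomorphic φ hφ ψ hψ).contDiffOn ho
    have h2 : ContDiffAt ℂ ∞ (ψ ∘ φ.symm) z := h1.contDiffAt (ho.mem_nhds ⟨hz, hz'⟩)
    exact hw.smooth.contDiffAt.comp z (h2.restrict_scalars ℝ)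
  · exact contDiffAt_const.congr_of_eventuallyEq (pull_zero_near hw hz hz')

namespace Frame

variable {X : RiemannSurfaceStructure S} (F : Frame X)

/-- the exact test form -/
noncomputable def tf (φ : OpenPartialHomeomorph S ℂ) (v : ℂ → ℝ) : S → ℂ :=
  φ.source.indicator fun x => D v (φ x) / F.J φ x

lemma pull_D [T2Space S] {φ ψ : OpenPartialHomeomorph S ℂ}
    (hφ : φ ∈ X.charts) (hψ : ψ ∈ X.charts) {w : ℂ → ℝ} (hw : IsTest ψ w) {z : ℂ}
    (hz : z ∈ φ.target) :
    F.tf ψ w (φ.symm z) * F.J φ (φ.symm z) = D (pull φ ψ w) z := by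
  have hx := φ.map_target hz
  by_cases hz' : φ.symm z ∈ ψ.source
  · rw [D_congr (pull_eq_near hz hz')]
    have h1 := trans_diff hφ hψ hx hz'
    rw [φ.right_inv hz] at h1
    rw [D_comp (v := w) (h := ψ ∘ φ.symm) ((hw.smooth.differentiable (by simp)).differentiableAt) h1,
      tf, indicator_of_mem hz', F.J_trans hφ hψ hx hz', φ.right_inv hz]
    have h2 := F.J_ne hψ hz'
    simp only [Function.comp_apply]
    field_simp
  · rw [D_congr (pull_zero_near hw hz hz'), tf, indicator_of_notMem hz', zero_mul]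
    simp [D]

variable [MeasurableSpace S] [BorelSpace S]

lemma aemeasurable_J' (φ : OpenPartialHomeomorph S ℂ) (ν : Measure S) :
    AEMeasurable (F.J φ) (ν.restrict φ.source) := by
  have h0 : φ.source = ⋃ n, φ.source ∩ F.P n := by
    rw [← inter_iUnion, F.iUnion_P, inter_univ]
  rw [h0, aemeasurable_iUnion_iff]
  intro n
  have hm : MeasurableSet (φ.source ∩ F.P n) :=
    φ.open_source.measurableSet.inter (F.measurableSet_P n)
  have h1 : AEMeasurable φ (ν.restrict (φ.source ∩ F.P n)) :=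
    (φ.continuousOn.mono inter_subset_left).aemeasurable hm
  have h2 : AEMeasurable (fun x => deriv (F.Φ n ∘ φ.symm) (φ x)) (ν.restrict (φ.source ∩ F.P n)) :=
    (measurable_deriv _).comp_aemeasurable h1
  refine h2.congr ?_
  rw [Filter.EventuallyEq, ae_restrict_iff' hm]
  refine Eventually.of_forall fun x hx => ?_
  rw [J, show F.idx x = n from hx.2]

lemma aestronglyMeasurable_tf {φ : OpenPartialHomeomorph S ℂ} {v : ℂ → ℝ} (hv : IsTest φ v)
    (ν : Measure S) : AEStronglyMeasurable (F.tf φ v) ν := by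
  refine AEMeasurable.aestronglyMeasurable ?_
  rw [tf, aemeasurable_indicator_iff φ.open_source.measurableSet]
  refine AEMeasurable.div ?_ (F.aemeasurable_J' φ ν)
  exact (D_continuous hv.smooth).measurable.comp_aemeasurable
    (φ.continuousOn.aemeasurable φ.open_source.measurableSet)

/-- the `L²` norm in a chart -/
lemma lintegral_sq {φ : OpenPartialHomeomorph S ℂ} (hφ : φ ∈ X.charts) {W : Set S}
    (hW : MeasurableSet W) (hWs : W ⊆ φ.source) {f : S → ℂ}
    (hf : AEMeasurable f (F.μ.restrict W)) :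
    ∫⁻ x in W, ‖f x‖ₑ ^ 2 ∂F.μ = ∫⁻ z in φ '' W, ‖f (φ.symm z) * F.J φ (φ.symm z)‖ₑ ^ 2 := by
  rw [F.lintegral_eq hφ hW hWs (hf.enorm.pow_const 2)]
  refine lintegral_congr fun z => ?_
  rw [dens, enorm_mul, mul_pow, mul_comm]

lemma memLp_tf {φ : OpenPartialHomeomorph S ℂ} (hφ : φ ∈ X.charts) {v : ℂ → ℝ}
    (hv : IsTest φ v) : MemLp (F.tf φ v) 2 F.μ := by
  rw [memLp_two_iff (F.aestronglyMeasurable_tf hv _)]
  have h1 : ∫⁻ x, ‖F.tf φ v x‖ₑ ^ 2 ∂F.μ = ∫⁻ x in φ.source, ‖F.tf φ v x‖ₑ ^ 2 ∂F.μ := by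
    rw [← lintegral_indicator φ.open_source.measurableSet]
    refine lintegral_congr fun x => ?_
    by_cases hx : x ∈ φ.source
    · rw [indicator_of_mem hx]
    · rw [indicator_of_notMem hx, tf, indicator_of_notMem hx]
      simp
  rw [h1, F.lintegral_sq hφ φ.open_source.measurableSet subset_rfl
    (F.aestronglyMeasurable_tf hv _).aemeasurable, φ.image_source_eq_target]
  have h2 : ∫⁻ z in φ.target, ‖F.tf φ v (φ.symm z) * F.J φ (φ.symm z)‖ₑ ^ 2 =
      ∫⁻ z in φ.target, ‖D v z‖ₑ ^ 2 := by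
    refine setLIntegral_congr_fun φ.open_target.measurableSet fun z hz => ?_
    have hx := φ.map_target hz
    rw [tf, indicator_of_mem hx, φ.right_inv hz, div_mul_cancel₀ _ (F.J_ne hφ hx)]
  rw [h2]
  refine lt_of_le_of_lt (setLIntegral_le_lintegral _ _) ?_
  have h3 : MemLp (D v) 2 (volume : Measure ℂ) :=
    (D_continuous hv.smooth).memLp_of_hasCompactSupport (D_hasCompactSupport hv.compact)
  exact (memLp_two_iff h3.1).1 h3

lemma pairing {φ : OpenPartialHomeomorph S ℂ} (hφ : φ ∈ X.charts) {v : ℂ → ℝ}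
    (hv : IsTest φ v) {U : Set S} (hU : MeasurableSet U) {A : S → ℂ}
    (hA : AEStronglyMeasurable A (F.μ.restrict U)) :
    ∫ x in U, A x * conj (F.tf φ v x) ∂F.μ =
      ∫ z in φ '' (φ.source ∩ U), (A (φ.symm z) * F.J φ (φ.symm z)) * conj (D v z) := by
  have h1 : ∫ x in U, A x * conj (F.tf φ v x) ∂F.μ =
      ∫ x in U, φ.source.indicator (fun x => A x * conj (F.tf φ v x)) x ∂F.μ := by
    refine integral_congr_ae (Eventually.of_forall fun x => ?_)
    by_cases hx : x ∈ φ.source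
    · simp only [indicator_of_mem hx]
    · simp only [indicator_of_notMem hx, tf, map_zero, mul_zero]
  rw [h1, setIntegral_indicator φ.open_source.measurableSet, inter_comm U]
  have hm : MeasurableSet (φ.source ∩ U) := φ.open_source.measurableSet.inter hU
  rw [F.integral_eq hφ hm inter_subset_left]
  · refine setIntegral_congr_fun (measurableSet_image hm inter_subset_left) fun z hz => ?_
    obtain ⟨x, ⟨hx, hxU⟩, rfl⟩ := hz
    rw [φ.left_inv hx, tf, indicator_of_mem hx]
    have h2 := F.J_ne hφ hx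
    have h3 : conj (F.J φ x) ≠ 0 := by simpa using h2
    rw [real_smul, map_div₀]
    push_cast
    rw [← mul_conj']
    field_simp
  · have h4 : AEStronglyMeasurable A (F.μ.restrict (φ.source ∩ U)) :=
      hA.mono_measure (Measure.restrict_mono inter_subset_right le_rfl)
    exact h4.mul (Complex.continuous_conj.comp_aestronglyMeasurable (F.aestronglyMeasurable_tf hv _))

lemma stokes_pair [T2Space S] {φ ψ : OpenPartialHomeomorph S ℂ} (hφ : φ ∈ X.charts)
    (hψ : ψ ∈ X.charts) {v w : ℂ → ℝ} (hv : IsTest φ v) (hw : IsTest ψ w) {U : Set S}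
    (hU : MeasurableSet U) (hvU : tsupport v ⊆ φ '' (φ.source ∩ U)) :
    (∫ x in U, F.tf ψ w x * conj (F.tf φ v x) ∂F.μ).im = 0 := by
  rw [F.pairing hφ hv hU (F.aestronglyMeasurable_tf hw _)]
  have hm : MeasurableSet (φ.source ∩ U) := φ.open_source.measurableSet.inter hU
  have h1 : ∫ z in φ '' (φ.source ∩ U),
      (F.tf ψ w (φ.symm z) * F.J φ (φ.symm z)) * conj (D v z) =
      ∫ z in φ '' (φ.source ∩ U), D (pull φ ψ w) z * conj (D v z) := by
    refine setIntegral_congr_fun (measurableSet_image hm inter_subset_left) fun z hz => ?_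
    rw [F.pull_D hφ hψ hw]
    obtain ⟨x, ⟨hx, hxU⟩, rfl⟩ := hz
    exact φ.map_source hx
  rw [h1]
  exact stokes φ.open_target hv.smooth hv.compact hv.supp (pull_smooth hφ hψ hw) hvU

end Frame

end Pool.Agent.Helper23.Flat
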